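import Mathlib

/-!
Running time of graph bootstrap percolation after attaching a pendant edge.

For the wheel `W₆` with six spokes and its centre `u` we show that `M_{H^{u+}}(n)` is unbounded but
not of the same order as `M_H(n)`.
-/

namespace Pool.Agent.H195.BP

section defs

variable {α β : Type}

/-- `G + xy` contains a copy of `H` that uses the edge `xy`. -/
def NewCopy (H : SimpleGraph α) (G : SimpleGraph β) (x y : β) : Prop :=
  ∃ f : α → β, Function.Injective f ∧
    (∀ a b, H.Adj a b → G.Adj (f a) (f b) ∨ s(f a, f b) = s(x, y)) ∧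
    ∃ a b, H.Adj a b ∧ s(f a, f b) = s(x, y)

/-- One round of the `H`-process. -/
def step (H : SimpleGraph α) (G : SimpleGraph β) : SimpleGraph β where
  Adj x y := G.Adj x y ∨ (x ≠ y ∧ NewCopy H G x y)
  symm := ⟨by
    rintro x y (h | ⟨h, f, hf, h1, h2⟩)
    · exact Or.inl h.symm
    · refine Or.inr ⟨h.symm, f, hf, ?_, ?_⟩
      · intro a b hab
        rw [Sym2.eq_swap (a := y)]
        exact h1 a b hab
      · rw [Sym2.eq_swap (a := y)]
        exact h2⟩
  loopless := ⟨by
    rintro x (h | ⟨h, _⟩)
    · exact G.loopless.irrefl x h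
    · exact h rfl⟩

/-- The `H`-process on `G` after `t` rounds. -/
def proc (H : SimpleGraph α) (G : SimpleGraph β) (t : ℕ) : SimpleGraph β := (step H)^[t] G

/-- The running time `τ_H(G)`. -/
noncomputable def tau (H : SimpleGraph α) (G : SimpleGraph β) : ℕ :=
  sInf {t | proc H G t = proc H G (t + 1)}

/-- The maximum running time `M_H(n)` over all graphs on `n` vertices. -/
noncomputable def Mx (H : SimpleGraph α) (n : ℕ) : ℕ :=
  sSup (Set.range fun G : SimpleGraph (Fin n) => tau H G)

/-- `H^{u+}`: a new vertex `none` joined only to `u`. -/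
def plus (H : SimpleGraph α) (u : α) : SimpleGraph (Option α) where
  Adj x y := match x, y with
    | some a, some b => H.Adj a b
    | none, some b => b = u
    | some a, none => a = u
    | none, none => False
  symm := ⟨by
    rintro (_ | a) (_ | b) h
    · exact h
    · exact h
    · exact h
    · exact SimpleGraph.Adj.symm (G := H) h⟩
  loopless := ⟨by
    rintro (_ | a) h
    · exact h
    · exact H.loopless.irrefl a h⟩

end defs

/-- The wheel with centre `none` and rim `0, …, 5`. -/
def W6 : SimpleGraph (Option (Fin 6)) where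
  Adj x y := match x, y with
    | some i, some j => j = i + 1 ∨ i = j + 1
    | none, some _ => True
    | some _, none => True
    | none, none => False
  symm := ⟨by
    rintro (_ | a) (_ | b) h
    · exact h
    · exact h
    · exact h
    · exact Or.symm h⟩
  loopless := ⟨by
    rintro (_ | a) h
    · exact h
    · rcases h with h | h <;> revert h <;> revert a <;> decide⟩

section generic

variable {α β : Type} (H : SimpleGraph α) (G : SimpleGraph β)

lemma le_step : G ≤ step H G := fun _ _ h => Or.inl h

lemma proc_succ (t : ℕ) : proc H G (t + 1) = step H (proc H G t) :=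
  Function.iterate_succ_apply' _ _ _

lemma proc_mono : Monotone (proc H G) :=
  monotone_nat_of_le_succ (fun t => by rw [proc_succ]; exact le_step _ _)

lemma exists_stable [Finite β] : ∃ t, proc H G t = proc H G (t + 1) := by
  have : WellFoundedGT (SimpleGraph β) := inferInstance
  obtain ⟨n, hn⟩ := WellFoundedGT.monotone_chain_condition ⟨proc H G, proc_mono H G⟩
  exact ⟨n, hn (n + 1) (by omega)⟩

lemma tau_le {t : ℕ} (h : proc H G t = proc H G (t + 1)) : tau H G ≤ t := Nat.sInf_le h

lemma le_tau [Finite β] {m : ℕ} (h : ∀ t < m, proc H G t ≠ proc H G (t + 1)) : m ≤ tau H G := by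
  have h1 : tau H G ∈ {t | proc H G t = proc H G (t + 1)} := Nat.sInf_mem (exists_stable H G)
  by_contra hlt
  push Not at hlt
  exact h _ hlt h1

lemma tau_le_Mx {n : ℕ} (G : SimpleGraph (Fin n)) : tau H G ≤ Mx H n :=
  le_csSup (Set.finite_range _).bddAbove ⟨G, rfl⟩

lemma Mx_le {n B : ℕ} (h : ∀ G : SimpleGraph (Fin n), tau H G ≤ B) : Mx H n ≤ B := by
  apply csSup_le (Set.range_nonempty _)
  rintro _ ⟨G, rfl⟩
  exact h G

end generic

section wheel

variable {β : Type}

/-- Data of a copy of the wheel in `G + xy`. -/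
structure Whl (G : SimpleGraph β) (x y a : β) (c : Fin 6 → β) : Prop where
  inj : Function.Injective c
  ne : ∀ i, c i ≠ a
  spoke : ∀ i, G.Adj a (c i) ∨ s(a, c i) = s(x, y)
  rim : ∀ i, G.Adj (c i) (c (i + 1)) ∨ s(c i, c (i + 1)) = s(x, y)

lemma newCopy_W6_of {G : SimpleGraph β} {x y a : β} {c : Fin 6 → β} (h : Whl G x y a c)
    (hu : (∃ i, s(a, c i) = s(x, y)) ∨ ∃ i, s(c i, c (i + 1)) = s(x, y)) :
    NewCopy W6 G x y := by
  refine ⟨fun o => o.elim a c, ?_, ?_, ?_⟩
  · rintro (_ | i) (_ | j) hij
    · rfl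
    · exact absurd hij.symm (h.ne j)
    · exact absurd hij (h.ne i)
    · exact congrArg some (h.inj hij)
  · rintro (_ | i) (_ | j) hij
    · exact hij.elim
    · exact h.spoke j
    · simp only [Option.elim]
      rw [G.adj_comm, Sym2.eq_swap]
      exact h.spoke i
    · rcases hij with rfl | rfl
      · exact h.rim i
      · simp only [Option.elim]
        rw [G.adj_comm, Sym2.eq_swap]
        exact h.rim j
  · rcases hu with ⟨i, hi⟩ | ⟨i, hi⟩
    · exact ⟨none, some i, trivial, hi⟩
    · exact ⟨some i, some (i + 1), Or.inl rfl, hi⟩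

lemma of_newCopy_W6 {G : SimpleGraph β} {x y : β} (h : NewCopy W6 G x y) :
    ∃ a c, Whl G x y a c ∧
      ((∃ i, s(a, c i) = s(x, y)) ∨ ∃ i, s(c i, c (i + 1)) = s(x, y)) := by
  obtain ⟨f, hf, h1, p, q, hpq, h2⟩ := h
  refine ⟨f none, fun i => f (some i), ⟨?_, ?_, ?_, ?_⟩, ?_⟩
  · intro i j hij
    exact Option.some.inj (hf hij)
  · intro i hi
    exact absurd (hf hi) (by simp)
  · intro i
    exact h1 none (some i) trivial
  · intro i
    exact h1 (some i) (some (i + 1)) (Or.inl rfl)
  · rcases p with _ | i <;> rcases q with _ | j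
    · exact hpq.elim
    · exact Or.inl ⟨j, h2⟩
    · left; exact ⟨i, by rw [Sym2.eq_swap]; exact h2⟩
    · right
      rcases hpq with rfl | rfl
      · exact ⟨i, h2⟩
      · exact ⟨j, by rw [Sym2.eq_swap]; exact h2⟩

lemma newCopy_plus_of {G : SimpleGraph β} {x y a z : β} {c : Fin 6 → β} (h : Whl G x y a c)
    (hza : z ≠ a) (hzc : ∀ i, z ≠ c i) (haz : G.Adj a z ∨ s(a, z) = s(x, y))
    (hu : (∃ i, s(a, c i) = s(x, y)) ∨ (∃ i, s(c i, c (i + 1)) = s(x, y)) ∨
      s(a, z) = s(x, y)) :
    NewCopy (plus W6 none) G x y := by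
  refine ⟨fun o => o.elim z (fun o' => o'.elim a c), ?_, ?_, ?_⟩
  · rintro (_ | _ | i) (_ | _ | j) hij
    · rfl
    · exact absurd hij hza
    · exact absurd hij (hzc j)
    · exact absurd hij.symm hza
    · rfl
    · exact absurd hij.symm (h.ne j)
    · exact absurd hij.symm (hzc i)
    · exact absurd hij (h.ne i)
    · exact congrArg some (congrArg some (h.inj hij))
  · rintro (_ | _ | i) (_ | _ | j) hij
    · exact hij.elim
    · simp only [Option.elim]
      rw [G.adj_comm, Sym2.eq_swap]
      exact haz
    · exact absurd hij (by simp [plus])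
    · exact haz
    · exact absurd hij (by simp [plus, W6])
    · exact h.spoke j
    · exact absurd hij (by simp [plus])
    · simp only [Option.elim]
      rw [G.adj_comm, Sym2.eq_swap]
      exact h.spoke i
    · rcases hij with rfl | rfl
      · exact h.rim i
      · simp only [Option.elim]
        rw [G.adj_comm, Sym2.eq_swap]
        exact h.rim j
  · rcases hu with ⟨i, hi⟩ | ⟨i, hi⟩ | hz
    · exact ⟨some none, some (some i), trivial, hi⟩
    · exact ⟨some (some i), some (some (i + 1)), Or.inl rfl, hi⟩
    · exact ⟨some none, none, rfl, hz⟩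

lemma of_newCopy_plus {G : SimpleGraph β} {x y : β} (h : NewCopy (plus W6 none) G x y) :
    ∃ a c z, Whl G x y a c ∧ z ≠ a ∧ (∀ i, z ≠ c i) ∧ (G.Adj a z ∨ s(a, z) = s(x, y)) ∧
      ((∃ i, s(a, c i) = s(x, y)) ∨ (∃ i, s(c i, c (i + 1)) = s(x, y)) ∨
        s(a, z) = s(x, y)) := by
  obtain ⟨f, hf, h1, p, q, hpq, h2⟩ := h
  refine ⟨f (some none), fun i => f (some (some i)), f none, ⟨?_, ?_, ?_, ?_⟩, ?_, ?_, ?_, ?_⟩
  · intro i j hij
    exact Option.some.inj (Option.some.inj (hf hij))
  · intro i hi
    exact absurd (hf hi) (by simp)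
  · intro i
    exact h1 (some none) (some (some i)) trivial
  · intro i
    exact h1 (some (some i)) (some (some (i + 1))) (Or.inl rfl)
  · intro hi
    exact absurd (hf hi) (by simp)
  · intro i hi
    exact absurd (hf hi) (by simp)
  · exact h1 (some none) none rfl
  · rcases p with _ | _ | i <;> rcases q with _ | _ | j
    · exact hpq.elim
    · right; right; rw [Sym2.eq_swap]; exact h2
    · exact absurd hpq (by simp [plus])
    · right; right; exact h2
    · exact absurd hpq (by simp [plus, W6])
    · exact Or.inl ⟨j, h2⟩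
    · exact absurd hpq (by simp [plus])
    · left; exact ⟨i, by rw [Sym2.eq_swap]; exact h2⟩
    · right; left
      rcases hpq with rfl | rfl
      · exact ⟨i, h2⟩
      · exact ⟨j, by rw [Sym2.eq_swap]; exact h2⟩

end wheel

end Pool.Agent.H195.BP
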