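import Pool.Agent.H195.BPWheel

/-! A chain of wheels: the running time of the wheel process is at least linear. -/

namespace Pool.Agent.H195.BP

inductive K | a | p | q | x | y
  deriving DecidableEq, Fintype

abbrev V := ℤ × K

/-- The neighbours of a vertex in the infinite chain in which the shared edges of the blocks with
index `< T` are present. -/
def nbs (T : ℤ) : V → List V
  | (i, .a) => [(i, .p), (i, .q), (i, .x), (i, .y), (i + 1, .x), (i + 1, .y)]
  | (i, .p) => [(i, .a), (i, .y), (i + 1, .y)]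
  | (i, .q) => [(i, .a), (i, .x), (i + 1, .x)]
  | (i, .x) => bif decide (i < T) then [(i, .a), (i - 1, .a), (i, .q), (i - 1, .q), (i, .y)]
      else [(i, .a), (i - 1, .a), (i, .q), (i - 1, .q)]
  | (i, .y) => bif decide (i < T) then [(i, .a), (i - 1, .a), (i, .p), (i - 1, .p), (i, .x)]
      else [(i, .a), (i - 1, .a), (i, .p), (i - 1, .p)]

lemma nbs_symm {T : ℤ} {u v : V} (h : v ∈ nbs T u) : u ∈ nbs T v := by
  obtain ⟨i, k⟩ := u
  obtain ⟨j, l⟩ := v
  by_cases hi : i < T <;> by_cases hj : j < T <;> cases k <;> cases l <;>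
    simp [nbs, hi, hj] at h ⊢ <;> omega

lemma nbs_irrefl {T : ℤ} {u : V} : u ∉ nbs T u := by
  obtain ⟨i, k⟩ := u
  by_cases hi : i < T <;> cases k <;> simp [nbs, hi]

/-- shift -/
def sh (s : ℤ) (u : V) : V := (u.1 - s, u.2)

lemma nbs_sh {T : ℤ} {u v : V} (s : ℤ) : sh s v ∈ nbs (T - s) (sh s u) ↔ v ∈ nbs T u := by
  obtain ⟨i, k⟩ := u
  obtain ⟨j, l⟩ := v
  have e : (i - s < T - s) ↔ i < T := by omega
  by_cases hi : i < T <;> cases k <;> cases l <;>
    simp [nbs, sh, hi] <;> omega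

lemma sh_inj {s : ℤ} {u v : V} (h : sh s u = sh s v) : u = v := by
  obtain ⟨i, k⟩ := u
  obtain ⟨j, l⟩ := v
  simp [sh] at h
  simp [h]

/-- All simple paths with `n + 1` vertices inside the neighbourhood of `c`, listed backwards. -/
def paths (T : ℤ) (c : V) : ℕ → List (List V)
  | 0 => (nbs T c).map fun d => [d]
  | n + 1 => (paths T c n).flatMap fun l => match l with
    | [] => []
    | d :: l' => ((nbs T d).filter fun e => (nbs T c).contains e && !(d :: l').contains e).map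
        fun e => e :: d :: l'

lemma mem_paths_zero {T : ℤ} {c d : V} (h : d ∈ nbs T c) : [d] ∈ paths T c 0 := by
  simp only [paths, List.mem_map]
  exact ⟨d, h, rfl⟩

lemma mem_paths_succ {T : ℤ} {c d e : V} {l : List V} {n : ℕ} (h : (d :: l) ∈ paths T c n)
    (h1 : e ∈ nbs T d) (h2 : e ∈ nbs T c) (h3 : e ∉ d :: l) :
    (e :: d :: l) ∈ paths T c (n + 1) := by
  simp only [paths, List.mem_flatMap]
  refine ⟨_, h, ?_⟩
  simp only [List.mem_map, List.mem_filter]
  refine ⟨e, ⟨h1, ?_⟩, rfl⟩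
  simp only [Bool.and_eq_true, List.contains_iff_mem, Bool.not_eq_true']
  refine ⟨h2, ?_⟩
  rw [← Bool.not_eq_true, List.contains_iff_mem]
  exact h3

/-- local check for the rim case -/
def rimCheck (T : ℤ) (k : K) : Bool :=
  (paths T (0, k) 5).all fun l => match l with
    | [e5, _, _, _, _, e0] => (nbs T e0).contains e5 ||
        (e0 == (T, .x) && e5 == (T, .y)) || (e0 == (T, .y) && e5 == (T, .x))
    | _ => false

def spkCheck (T : ℤ) (k : K) : Bool :=
  (paths T (0, k) 4).all fun l => match l with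
    | [e5, _, _, _, e1] => (nbs T e1).all fun f =>
        !((nbs T e5).contains f) || f == (0, k) || (nbs T (0, k)).contains f
    | _ => false

lemma check_all : ∀ T ∈ [(-6 : ℤ), -5, -4, -3, -2, -1, 0, 1, 2, 3, 4, 5, 6],
    ∀ k ∈ [K.a, K.p, K.q, K.x, K.y],
    rimCheck T k = true ∧ spkCheck T k = true := by
  decide +kernel

/-- The infinite chain. -/
def cG (T : ℤ) : SimpleGraph V where
  Adj u v := v ∈ nbs T u
  symm := ⟨fun _ _ h => nbs_symm h⟩
  loopless := ⟨fun _ h => nbs_irrefl h⟩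

lemma nbs_near {T : ℤ} {u v : V} (h : v ∈ nbs T u) : u.1 - 1 ≤ v.1 ∧ v.1 ≤ u.1 + 1 := by
  obtain ⟨i, k⟩ := u
  obtain ⟨j, l⟩ := v
  by_cases hi : i < T <;> cases k <;> simp [nbs, hi] at h ⊢ <;> omega

lemma nbs_clip {T : ℤ} {u : V} (h : -6 ≤ u.1) (h' : u.1 ≤ 5) :
    nbs (max (-6) (min T 6)) u = nbs T u := by
  obtain ⟨i, k⟩ := u
  have e : (i < max (-6) (min T 6)) ↔ i < T := by
    simp only at h h'
    omega
  cases k <;> simp only [nbs, e]

lemma clip_mem (T : ℤ) :
    max (-6) (min T 6) ∈ [(-6 : ℤ), -5, -4, -3, -2, -1, 0, 1, 2, 3, 4, 5, 6] := by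
  simp only [List.mem_cons, List.not_mem_nil, or_false]
  omega

lemma K_mem (k : K) : k ∈ [K.a, K.p, K.q, K.x, K.y] := by
  cases k <;> simp

lemma local_rim0 {T : ℤ} {k : K} {p0 p1 p2 p3 p4 p5 : V}
    (w : RimP (cG T) (0, k) p0 p1 p2 p3 p4 p5) :
    (cG T).Adj p0 p5 ∨ (p0 = (T, .x) ∧ p5 = (T, .y)) ∨ (p0 = (T, .y) ∧ p5 = (T, .x)) := by
  have h := (check_all _ (clip_mem T) k (K_mem k)).1
  set T' := max (-6) (min T 6) with hT'
  have b : ∀ v, (cG T).Adj (0, k) v → -1 ≤ v.1 ∧ v.1 ≤ 1 := by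
    intro v hv
    have := nbs_near hv
    simp only at this
    omega
  have c : ∀ v, (cG T).Adj (0, k) v → nbs T' v = nbs T v := by
    intro v hv
    have := b v hv
    exact nbs_clip (by omega) (by omega)
  have c0 : nbs T' (0, k) = nbs T (0, k) := nbs_clip (by simp) (by simp)
  obtain ⟨nd, na, s0, s1, s2, s3, s4, s5, r0, r1, r2, r3, r4⟩ := w
  simp only [List.nodup_cons, List.mem_cons, List.not_mem_nil, or_false, not_or] at nd
  have m0 : [p0] ∈ paths T' (0, k) 0 := mem_paths_zero (by rw [c0]; exact s0)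
  have m1 := mem_paths_succ m0 (e := p1) (by rw [c _ s0]; exact r0) (by rw [c0]; exact s1)
    (by simp; tauto)
  have m2 := mem_paths_succ m1 (e := p2) (by rw [c _ s1]; exact r1) (by rw [c0]; exact s2)
    (by simp; tauto)
  have m3 := mem_paths_succ m2 (e := p3) (by rw [c _ s2]; exact r2) (by rw [c0]; exact s3)
    (by simp; tauto)
  have m4 := mem_paths_succ m3 (e := p4) (by rw [c _ s3]; exact r3) (by rw [c0]; exact s4)
    (by simp; tauto)
  have m5 := mem_paths_succ m4 (e := p5) (by rw [c _ s4]; exact r4) (by rw [c0]; exact s5)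
    (by simp; tauto)
  have h6 := List.all_eq_true.1 h _ m5
  simp only [Bool.or_eq_true, List.contains_iff_mem, Bool.and_eq_true, beq_iff_eq] at h6
  rcases h6 with (h6 | ⟨h6, h7⟩) | ⟨h6, h7⟩
  · left
    rw [c _ s0] at h6
    exact h6
  · right; left
    have := b _ s0
    rw [h6] at this
    simp only at this
    have e : T' = T := by omega
    rw [h6, h7, e]
    exact ⟨rfl, rfl⟩
  · right; right
    have := b _ s0
    rw [h6] at this
    simp only at this
    have e : T' = T := by omega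
    rw [h6, h7, e]
    exact ⟨rfl, rfl⟩

lemma local_spk0 {T : ℤ} {k : K} {p0 p1 p2 p3 p4 p5 : V}
    (w : SpkP (cG T) (0, k) p0 p1 p2 p3 p4 p5) : (cG T).Adj (0, k) p0 := by
  have h := (check_all _ (clip_mem T) k (K_mem k)).2
  set T' := max (-6) (min T 6) with hT'
  have b : ∀ v, (cG T).Adj (0, k) v → -1 ≤ v.1 ∧ v.1 ≤ 1 := by
    intro v hv
    have := nbs_near hv
    simp only at this
    omega
  have c : ∀ v, (cG T).Adj (0, k) v → nbs T' v = nbs T v := by
    intro v hv
    have := b v hv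
    exact nbs_clip (by omega) (by omega)
  have c0 : nbs T' (0, k) = nbs T (0, k) := nbs_clip (by simp) (by simp)
  obtain ⟨nd, na, s1, s2, s3, s4, s5, r0, r1, r2, r3, r4, r5⟩ := w
  simp only [List.nodup_cons, List.mem_cons, List.not_mem_nil, or_false, not_or] at nd
  simp only [List.mem_cons, List.not_mem_nil, or_false, not_or] at na
  have m0 : [p1] ∈ paths T' (0, k) 0 := mem_paths_zero (by rw [c0]; exact s1)
  have m1 := mem_paths_succ m0 (e := p2) (by rw [c _ s1]; exact r1) (by rw [c0]; exact s2)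
    (by simp; tauto)
  have m2 := mem_paths_succ m1 (e := p3) (by rw [c _ s2]; exact r2) (by rw [c0]; exact s3)
    (by simp; tauto)
  have m3 := mem_paths_succ m2 (e := p4) (by rw [c _ s3]; exact r3) (by rw [c0]; exact s4)
    (by simp; tauto)
  have m4 := mem_paths_succ m3 (e := p5) (by rw [c _ s4]; exact r4) (by rw [c0]; exact s5)
    (by simp; tauto)
  have h6 := List.all_eq_true.1 h _ m4
  have h7 := List.all_eq_true.1 h6 p0 (by rw [c _ s1]; exact r0.symm)
  simp only [Bool.or_eq_true, List.contains_iff_mem, beq_iff_eq, Bool.not_eq_true'] at h7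
  rw [← Bool.not_eq_true, List.contains_iff_mem] at h7
  rcases h7 with (h7 | h7) | h7
  · exact absurd (by rw [c _ s5]; exact r5) h7
  · exact absurd h7.symm na.1
  · rw [c0] at h7
    exact h7

lemma cG_sh {T : ℤ} (s : ℤ) {u v : V} (h : (cG T).Adj u v) : (cG (T - s)).Adj (sh s u) (sh s v) :=
  (nbs_sh s).2 h

lemma local_rim {T : ℤ} {a p0 p1 p2 p3 p4 p5 : V}
    (w : RimP (cG T) a p0 p1 p2 p3 p4 p5) :
    (cG T).Adj p0 p5 ∨ (p0 = (T, .x) ∧ p5 = (T, .y)) ∨ (p0 = (T, .y) ∧ p5 = (T, .x)) := by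
  obtain ⟨i, k⟩ := a
  have w' : RimP (cG (T - i)) (0, k) (sh i p0) (sh i p1) (sh i p2) (sh i p3) (sh i p4)
      (sh i p5) := by
    have e : ((0, k) : V) = sh i (i, k) := by simp [sh]
    rw [e]
    obtain ⟨nd, na, s0, s1, s2, s3, s4, s5, r0, r1, r2, r3, r4⟩ := w
    refine ⟨?_, ?_, cG_sh i s0, cG_sh i s1, cG_sh i s2, cG_sh i s3, cG_sh i s4, cG_sh i s5,
      cG_sh i r0, cG_sh i r1, cG_sh i r2, cG_sh i r3, cG_sh i r4⟩
    · exact nd.map (f := sh i) (fun _ _ h => sh_inj h)
    · intro hm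
      apply na
      exact (List.mem_map_of_injective (f := sh i) (fun _ _ h => sh_inj h)
        (l := [p0, p1, p2, p3, p4, p5])).1 hm
  rcases local_rim0 w' with h | ⟨h1, h2⟩ | ⟨h1, h2⟩
  · left
    exact (nbs_sh i).1 h
  · right; left
    exact ⟨sh_inj (s := i) (by rw [h1]; simp [sh]), sh_inj (s := i) (by rw [h2]; simp [sh])⟩
  · right; right
    exact ⟨sh_inj (s := i) (by rw [h1]; simp [sh]), sh_inj (s := i) (by rw [h2]; simp [sh])⟩

lemma local_spk {T : ℤ} {a p0 p1 p2 p3 p4 p5 : V}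
    (w : SpkP (cG T) a p0 p1 p2 p3 p4 p5) : (cG T).Adj a p0 := by
  obtain ⟨i, k⟩ := a
  have w' : SpkP (cG (T - i)) (sh i (i, k)) (sh i p0) (sh i p1) (sh i p2) (sh i p3) (sh i p4)
      (sh i p5) := by
    obtain ⟨nd, na, s1, s2, s3, s4, s5, r0, r1, r2, r3, r4, r5⟩ := w
    refine ⟨?_, ?_, cG_sh i s1, cG_sh i s2, cG_sh i s3, cG_sh i s4, cG_sh i s5,
      cG_sh i r0, cG_sh i r1, cG_sh i r2, cG_sh i r3, cG_sh i r4, cG_sh i r5⟩
    · exact nd.map (f := sh i) (fun _ _ h => sh_inj h)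
    · intro hm
      apply na
      exact (List.mem_map_of_injective (f := sh i) (fun _ _ h => sh_inj h)
        (l := [p0, p1, p2, p3, p4, p5])).1 hm
  have e : sh i (i, k) = ((0, k) : V) := by simp [sh]
  have := local_spk0 (k := k) (by rw [e] at w'; exact w')
  rw [← e] at this
  exact (nbs_sh i).1 this

/-- The embedding of the finite chain. -/
def emb (m : ℕ) (u : Fin (m + 1) × K) : V := ((u.1.val : ℤ), u.2)

lemma emb_inj (m : ℕ) : Function.Injective (emb m) := by
  rintro ⟨i, k⟩ ⟨j, l⟩ h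
  simp only [emb, Prod.mk.injEq, Nat.cast_inj] at h
  rw [Fin.ext h.1, h.2]

/-- The finite chain. -/
def D (m : ℕ) (T : ℤ) : SimpleGraph (Fin (m + 1) × K) := (cG T).comap (emb m)

lemma D_step_le {m : ℕ} {T : ℤ} : step W6 (D m T) ≤ D m (T + 1) := by
  have hnew : (cG T) ≤ cG (T + 1) := by
    rintro ⟨i, k⟩ ⟨j, l⟩ h
    have h : (j, l) ∈ nbs T (i, k) := h
    show (j, l) ∈ nbs (T + 1) (i, k)
    by_cases h1 : i < T <;> by_cases h2 : i < T + 1 <;> cases k <;> simp [nbs, h1, h2] at h ⊢ <;>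
      first | tauto | omega
  have hxy : (cG (T + 1)).Adj (T, .x) (T, .y) := by
    show _ ∈ nbs _ _
    simp [nbs]
  intro u v h
  show (cG (T + 1)).Adj (emb m u) (emb m v)
  rcases elim_W6 h with h | ⟨a, p0, p1, p2, p3, p4, p5, w, e⟩ | ⟨a, p0, p1, p2, p3, p4, p5, w, e⟩
  · exact hnew h
  · have w' : RimP (cG T) (emb m a) (emb m p0) (emb m p1) (emb m p2) (emb m p3) (emb m p4)
        (emb m p5) := by
      obtain ⟨nd, na, s0, s1, s2, s3, s4, s5, r0, r1, r2, r3, r4⟩ := w
      refine ⟨nd.map (emb_inj m), ?_, s0, s1, s2, s3, s4, s5, r0, r1, r2, r3, r4⟩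
      intro hm
      apply na
      exact (List.mem_map_of_injective (emb_inj m) (l := [p0, p1, p2, p3, p4, p5])).1 hm
    have key : (cG (T + 1)).Adj (emb m p0) (emb m p5) := by
      rcases local_rim w' with h | ⟨h1, h2⟩ | ⟨h1, h2⟩
      · exact hnew h
      · rw [h1, h2]; exact hxy
      · rw [h1, h2]; exact hxy.symm
    rcases Sym2.eq_iff.1 e with ⟨e1, e2⟩ | ⟨e1, e2⟩
    · rw [← e1, ← e2]; exact key.symm
    · rw [← e1, ← e2]; exact key
  · have w' : SpkP (cG T) (emb m a) (emb m p0) (emb m p1) (emb m p2) (emb m p3) (emb m p4)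
        (emb m p5) := by
      obtain ⟨nd, na, s1, s2, s3, s4, s5, r0, r1, r2, r3, r4, r5⟩ := w
      refine ⟨nd.map (emb_inj m), ?_, s1, s2, s3, s4, s5, r0, r1, r2, r3, r4, r5⟩
      intro hm
      apply na
      exact (List.mem_map_of_injective (emb_inj m) (l := [p0, p1, p2, p3, p4, p5])).1 hm
    have key : (cG (T + 1)).Adj (emb m a) (emb m p0) := hnew (local_spk w')
    rcases Sym2.eq_iff.1 e with ⟨e1, e2⟩ | ⟨e1, e2⟩
    · rw [← e1, ← e2]; exact key
    · rw [← e1, ← e2]; exact key.symm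

lemma D_step_new {m T : ℕ} (h : T + 1 ≤ m) :
    (step W6 (D m (T + 1 : ℕ))).Adj (⟨T + 1, by omega⟩, .x) (⟨T + 1, by omega⟩, .y) := by
  have e : (⟨T, by omega⟩ : Fin (m + 1)) ≠ ⟨T + 1, by omega⟩ := by
    intro h; simp [Fin.ext_iff] at h
  apply step_rim (a := (⟨T, by omega⟩, .a)) (p1 := (⟨T, by omega⟩, .q))
    (p2 := (⟨T, by omega⟩, .x)) (p3 := (⟨T, by omega⟩, .y)) (p4 := (⟨T, by omega⟩, .p))
  constructor
  · simp [Prod.ext_iff]
  · simp [Prod.ext_iff]
  all_goals
    show _ ∈ nbs _ _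
    simp [nbs, emb]

lemma nbs_succ {T : ℤ} {u v : V} (h : v ∈ nbs (T + 1) u) :
    v ∈ nbs T u ∨ (u = (T, .x) ∧ v = (T, .y)) ∨ (u = (T, .y) ∧ v = (T, .x)) := by
  obtain ⟨i, k⟩ := u
  obtain ⟨j, l⟩ := v
  by_cases h1 : i < T
  · left
    have h2 : i < T + 1 := by omega
    cases k <;> simp only [nbs, h1, h2] at h ⊢ <;> exact h
  · by_cases h2 : i < T + 1
    · have h3 : i = T := by omega
      subst h3
      cases k
      · left; exact h
      · left; exact h
      · left; exact h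
      · simp [nbs] at h ⊢
        tauto
      · simp [nbs] at h ⊢
        tauto
    · left
      cases k <;> simp only [nbs, h1, h2] at h ⊢ <;> exact h

lemma D_le_step {m T : ℕ} (h : T + 1 ≤ m) :
    D m ((T + 1 : ℕ) + 1) ≤ step W6 (D m (T + 1 : ℕ)) := by
  intro u v huv
  rcases nbs_succ huv with hh | ⟨h1, h2⟩ | ⟨h1, h2⟩
  · exact le_step _ _ hh
  · have e1 : u = (⟨T + 1, by omega⟩, .x) := emb_inj m (by rw [h1]; simp [emb])
    have e2 : v = (⟨T + 1, by omega⟩, .y) := emb_inj m (by rw [h2]; simp [emb])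
    rw [e1, e2]
    exact D_step_new h
  · have e1 : u = (⟨T + 1, by omega⟩, .y) := emb_inj m (by rw [h1]; simp [emb])
    have e2 : v = (⟨T + 1, by omega⟩, .x) := emb_inj m (by rw [h2]; simp [emb])
    rw [e1, e2]
    exact (D_step_new h).symm

lemma D_step {m T : ℕ} (h : T + 1 ≤ m) :
    step W6 (D m (T + 1 : ℕ)) = D m ((T + 1 : ℕ) + 1) :=
  le_antisymm D_step_le (D_le_step h)

lemma D_proc {m t : ℕ} (h : t ≤ m) : proc W6 (D m 1) t = D m ((t + 1 : ℕ) : ℤ) := by
  induction t with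
  | zero => rfl
  | succ t ih =>
    rw [proc_succ, ih (by omega), D_step (by omega)]
    push_cast
    rfl

lemma D_proc_ne {m t : ℕ} (h : t < m) : proc W6 (D m 1) t ≠ proc W6 (D m 1) (t + 1) := by
  rw [D_proc (by omega), D_proc (by omega)]
  intro he
  have h1 : (D m ((t + 1 + 1 : ℕ) : ℤ)).Adj (⟨t + 1, by omega⟩, .x) (⟨t + 1, by omega⟩, .y) := by
    show _ ∈ nbs _ _
    simp [nbs, emb]
  rw [← he] at h1
  have h2 : emb m (⟨t + 1, by omega⟩, .y) ∈ nbs ((t + 1 : ℕ) : ℤ) (emb m (⟨t + 1, by omega⟩, .x)) :=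
    h1
  simp [nbs, emb] at h2

section transport

variable {α β γ : Type} (H : SimpleGraph α)

lemma newCopy_comap (e : γ ≃ β) (G : SimpleGraph β) (x y : γ) :
    NewCopy H (G.comap e) x y ↔ NewCopy H G (e x) (e y) := by
  constructor
  · rintro ⟨f, hf, h1, p, q, hpq, h2⟩
    refine ⟨e ∘ f, e.injective.comp hf, ?_, p, q, hpq, ?_⟩
    · intro a b hab
      rcases h1 a b hab with h | h
      · exact Or.inl h
      · right
        have := congrArg (Sym2.map e) h
        simpa using this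
    · have := congrArg (Sym2.map e) h2
      simpa using this
  · rintro ⟨f, hf, h1, p, q, hpq, h2⟩
    refine ⟨e.symm ∘ f, e.symm.injective.comp hf, ?_, p, q, hpq, ?_⟩
    · intro a b hab
      rcases h1 a b hab with h | h
      · left
        simpa using h
      · right
        have := congrArg (Sym2.map e.symm) h
        simpa using this
    · have := congrArg (Sym2.map e.symm) h2
      simpa using this

lemma step_comap (e : γ ≃ β) (G : SimpleGraph β) :
    step H (G.comap e) = (step H G).comap e := by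
  ext x y
  show _ ∨ (_ ∧ _) ↔ _ ∨ (_ ∧ _)
  rw [newCopy_comap, ← e.injective.ne_iff]
  rfl

lemma proc_comap (e : γ ≃ β) (G : SimpleGraph β) (t : ℕ) :
    proc H (G.comap e) t = (proc H G t).comap e := by
  induction t with
  | zero => rfl
  | succ t ih => rw [proc_succ, proc_succ, ih, step_comap]

end transport

/-- The running time of the wheel process is at least linear. -/
theorem Mx_wheel_ge (m : ℕ) : m ≤ Mx W6 (5 * (m + 1)) := by
  have hc : Fintype.card (Fin (5 * (m + 1))) = Fintype.card (Fin (m + 1) × K) := by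
    rw [Fintype.card_prod, Fintype.card_fin, Fintype.card_fin]
    have : Fintype.card K = 5 := rfl
    rw [this, mul_comm]
  let e : Fin (5 * (m + 1)) ≃ Fin (m + 1) × K := Fintype.equivOfCardEq hc
  refine le_trans (le_tau W6 ((D m 1).comap e) ?_) (tau_le_Mx W6 ((D m 1).comap e))
  intro t ht he
  rw [proc_comap, proc_comap] at he
  apply D_proc_ne ht
  ext u v
  have := congrArg (fun G => G.Adj (e.symm u) (e.symm v)) he
  simpa using this

end Pool.Agent.H195.BP
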