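import Pool.Agent.H195.BPBase

/-! Unboundedness of the running time for the wheel with a pendant edge at the centre. -/

namespace Pool.Agent.H195.BP

open Finset

/-- hub `0` joined to everything, plus the path `1 - 2 - ⋯ - N`. -/
def host (N : ℕ) : SimpleGraph (Fin (N + 1)) where
  Adj i j := i ≠ j ∧ (i = 0 ∨ j = 0 ∨ i.val + 1 = j.val ∨ j.val + 1 = i.val)
  symm := ⟨by
    rintro i j ⟨h, h1⟩
    exact ⟨h.symm, by tauto⟩⟩
  loopless := ⟨fun _ h => h.1 rfl⟩

structure Bd {N : ℕ} (d : ℕ) (G : SimpleGraph (Fin (N + 1))) : Prop where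
  hub : ∀ j, j ≠ 0 → G.Adj 0 j
  odd : ∀ i j, G.Adj i j → i ≠ 0 → j ≠ 0 → Odd ((i.val : ℤ) - j.val)
  le1 : ∀ i j, G.Adj i j → i ≠ 0 → j ≠ 0 → (i.val : ℤ) - j.val ≤ d

lemma Bd.new {N d : ℕ} {G : SimpleGraph (Fin (N + 1))} (h : Bd d G) {x y : Fin (N + 1)}
    (hxy : x ≠ y) (hx : x ≠ 0) (hy : y ≠ 0) (hc : NewCopy (plus W6 none) G x y) :
    Odd ((x.val : ℤ) - y.val) ∧ (x.val : ℤ) - y.val ≤ 5 * d := by
  obtain ⟨a, c, z, hw, hza, hzc, haz, hu⟩ := of_newCopy_plus hc
  have tri : ∀ j, a ≠ 0 → c j ≠ 0 → c (j + 1) ≠ 0 →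
      (x = a ∨ x = c j ∨ x = c (j + 1)) ∧ (y = a ∨ y = c j ∨ y = c (j + 1)) := by
    intro j ha h1 h2
    have e1 := hw.spoke j
    have e2 := hw.spoke (j + 1)
    have e3 := hw.rim j
    rcases e1 with e1 | e1
    · rcases e2 with e2 | e2
      · rcases e3 with e3 | e3
        · exfalso
          obtain ⟨k1, hk1⟩ := h.odd _ _ e1 ha h1
          obtain ⟨k2, hk2⟩ := h.odd _ _ e2 ha h2
          obtain ⟨k3, hk3⟩ := h.odd _ _ e3 h1 h2
          omega
        · rcases Sym2.eq_iff.1 e3 with ⟨p, q⟩ | ⟨p, q⟩ <;> tauto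
      · rcases Sym2.eq_iff.1 e2 with ⟨p, q⟩ | ⟨p, q⟩ <;> tauto
    · rcases Sym2.eq_iff.1 e1 with ⟨p, q⟩ | ⟨p, q⟩ <;> tauto
  have ha : a = 0 := by
    by_contra ha
    have hi : ∃ i, c i ≠ 0 ∧ c (i + 1) ≠ 0 ∧ c (i + 1 + 1) ≠ 0 ∧ c (i + 1 + 1 + 1) ≠ 0 := by
      by_cases h0 : ∃ i, c i = 0
      · obtain ⟨i, hi⟩ := h0
        have hne : ∀ k, k ≠ i → c k ≠ 0 := by
          intro k hk hk0
          exact hk (hw.inj (hk0.trans hi.symm))
        refine ⟨i + 1, hne _ ?_, hne _ ?_, hne _ ?_, hne _ ?_⟩ <;> clear hi hne <;>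
          revert i <;> decide
      · push Not at h0
        exact ⟨0, h0 _, h0 _, h0 _, h0 _⟩
    obtain ⟨i, h1, h2, h3, h4⟩ := hi
    have t1 := tri i ha h1 h2
    have t2 := tri (i + 1 + 1) ha h3 h4
    have n1 : c i ≠ c (i + 1 + 1) := fun e => by
      have := hw.inj e; revert this; clear * -; revert i; decide
    have n2 : c i ≠ c (i + 1 + 1 + 1) := fun e => by
      have := hw.inj e; revert this; clear * -; revert i; decide
    have n3 : c (i + 1) ≠ c (i + 1 + 1) := fun e => by
      have := hw.inj e; revert this; clear * -; revert i; decide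
    have n4 : c (i + 1) ≠ c (i + 1 + 1 + 1) := fun e => by
      have := hw.inj e; revert this; clear * -; revert i; decide
    have xa : x = a := by
      rcases t1.1 with e | e | e
      · exact e
      · rcases t2.1 with f | f | f
        · exact f
        · exact absurd (e.symm.trans f) n1
        · exact absurd (e.symm.trans f) n2
      · rcases t2.1 with f | f | f
        · exact f
        · exact absurd (e.symm.trans f) n3
        · exact absurd (e.symm.trans f) n4
    have ya : y = a := by
      rcases t1.2 with e | e | e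
      · exact e
      · rcases t2.2 with f | f | f
        · exact f
        · exact absurd (e.symm.trans f) n1
        · exact absurd (e.symm.trans f) n2
      · rcases t2.2 with f | f | f
        · exact f
        · exact absurd (e.symm.trans f) n3
        · exact absurd (e.symm.trans f) n4
    exact hxy (xa.trans ya.symm)
  subst ha
  have hrim : ∃ i, s(c i, c (i + 1)) = s(x, y) := by
    rcases hu with ⟨i, hi⟩ | hi | hi
    · rcases Sym2.eq_iff.1 hi with ⟨p, q⟩ | ⟨p, q⟩
      · exact absurd p.symm hx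
      · exact absurd p.symm hy
    · exact hi
    · rcases Sym2.eq_iff.1 hi with ⟨p, q⟩ | ⟨p, q⟩
      · exact absurd p.symm hx
      · exact absurd p.symm hy
  obtain ⟨i, hi⟩ := hrim
  have adj : ∀ k : Fin 6, k ≠ 0 → G.Adj (c (i + k)) (c (i + k + 1)) := by
    intro k hk
    rcases hw.rim (i + k) with e | e
    · exact e
    · exfalso
      rw [← hi] at e
      rcases Sym2.eq_iff.1 e with ⟨p, q⟩ | ⟨p, q⟩
      · have := hw.inj p
        exact hk (by simpa using this)
      · have h1 := hw.inj p
        have h2 := hw.inj q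
        revert h1 h2; clear * -; revert i k; decide
  have hne : ∀ k, c k ≠ 0 := hw.ne
  have i6 : i + 5 + 1 = i := by clear * -; revert i; decide
  have i1 : i + 1 + 1 = i + 2 := by clear * -; revert i; decide
  have i2 : i + 2 + 1 = i + 3 := by clear * -; revert i; decide
  have i3 : i + 3 + 1 = i + 4 := by clear * -; revert i; decide
  have i4 : i + 4 + 1 = i + 5 := by clear * -; revert i; decide
  have a1 := adj 1 (by decide)
  have a2 := adj 2 (by decide)
  have a3 := adj 3 (by decide)
  have a4 := adj 4 (by decide)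
  have a5 := adj 5 (by decide)
  rw [i1] at a1
  rw [i2] at a2
  rw [i3] at a3
  rw [i4] at a4
  rw [i6] at a5
  obtain ⟨k1, o1⟩ := h.odd _ _ a1 (hne _) (hne _)
  obtain ⟨k2, o2⟩ := h.odd _ _ a2 (hne _) (hne _)
  obtain ⟨k3, o3⟩ := h.odd _ _ a3 (hne _) (hne _)
  obtain ⟨k4, o4⟩ := h.odd _ _ a4 (hne _) (hne _)
  obtain ⟨k5, o5⟩ := h.odd _ _ a5 (hne _) (hne _)
  have l1 := h.le1 _ _ a1 (hne _) (hne _)
  have l2 := h.le1 _ _ a2 (hne _) (hne _)
  have l3 := h.le1 _ _ a3 (hne _) (hne _)
  have l4 := h.le1 _ _ a4 (hne _) (hne _)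
  have l5 := h.le1 _ _ a5 (hne _) (hne _)
  have m1 := h.le1 _ _ a1.symm (hne _) (hne _)
  have m2 := h.le1 _ _ a2.symm (hne _) (hne _)
  have m3 := h.le1 _ _ a3.symm (hne _) (hne _)
  have m4 := h.le1 _ _ a4.symm (hne _) (hne _)
  have m5 := h.le1 _ _ a5.symm (hne _) (hne _)
  rcases Sym2.eq_iff.1 hi with ⟨p, q⟩ | ⟨p, q⟩
  · subst p q
    refine ⟨⟨-(k1 + k2 + k3 + k4 + k5 + 3), by omega⟩, by omega⟩
  · subst p q
    refine ⟨⟨k1 + k2 + k3 + k4 + k5 + 2, by omega⟩, by omega⟩

lemma Bd.step {N d : ℕ} {G : SimpleGraph (Fin (N + 1))} (h : Bd d G) :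
    Bd (5 * d) (step (plus W6 none) G) := by
  refine ⟨fun j hj => Or.inl (h.hub j hj), ?_, ?_⟩
  · rintro i j (hij | ⟨hne, hc⟩) hi hj
    · exact h.odd _ _ hij hi hj
    · exact (h.new hne hi hj hc).1
  · rintro i j (hij | ⟨hne, hc⟩) hi hj
    · have := h.le1 _ _ hij hi hj
      push_cast
      omega
    · have := (h.new hne hi hj hc).2
      push_cast
      exact this

lemma Bd.host (N : ℕ) : Bd 1 (host N) := by
  refine ⟨fun j hj => ⟨hj.symm, Or.inl rfl⟩, ?_, ?_⟩
  · rintro i j ⟨hne, h⟩ hi hj
    rcases h with h | h | h | h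
    · exact absurd h hi
    · exact absurd h hj
    · exact ⟨-1, by omega⟩
    · exact ⟨0, by omega⟩
  · rintro i j ⟨hne, h⟩ hi hj
    rcases h with h | h | h | h
    · exact absurd h hi
    · exact absurd h hj
    · push_cast; omega
    · push_cast; omega

lemma Bd.proc (N t : ℕ) : Bd (5 ^ t) (proc (plus W6 none) (BP.host N) t) := by
  induction t with
  | zero => exact Bd.host N
  | succ t ih =>
    rw [proc_succ, pow_succ, mul_comm]
    exact ih.step

lemma not_stable (N t : ℕ) (hN : 5 ^ (t + 1) + 10 ≤ N) :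
    proc (plus W6 none) (host N) t ≠ proc (plus W6 none) (host N) (t + 1) := by
  intro hst
  have hp5 : 0 < 5 ^ (t + 1) := by positivity
  generalize hM : 5 ^ (t + 1) = M at hN hp5
  have hB := Bd.proc N t
  set G := BP.proc (plus W6 none) (BP.host N) t with hG
  rw [proc_succ, ← hG] at hst
  have hle : BP.host N ≤ G := by
    have := proc_mono (plus W6 none) (BP.host N) (Nat.zero_le t)
    exact this
  have main : ∀ k : ℕ, ∀ i j : Fin (N + 1), i ≠ 0 → j.val = i.val + 5 ^ k → G.Adj i j := by
    intro k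
    induction k with
    | zero =>
      intro i j hi hj
      apply hle
      refine ⟨fun e => ?_, Or.inr (Or.inr (Or.inl ?_))⟩
      · rw [e] at hj; simp at hj
      · simpa using hj.symm
    | succ k ih =>
      intro i j hi hj
      have hpos : 0 < 5 ^ k := by positivity
      have hjN := j.isLt
      have h5 : 5 ^ (k + 1) = 5 * 5 ^ k := by rw [pow_succ]; ring
      have hi0 : i.val ≠ 0 := fun e => hi (Fin.ext e)
      let c : Fin 6 → Fin (N + 1) := fun m => ⟨i.val + m.val * 5 ^ k, by
        have hm : m.val * 5 ^ k ≤ 5 * 5 ^ k := Nat.mul_le_mul_right _ (by omega)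
        omega⟩
      have c0 : c 0 = i := by apply Fin.ext; simp [c]
      have c5 : c 5 = j := by
        apply Fin.ext
        simp only [c]
        rw [hj, h5]
        rfl
      have cinj : Function.Injective c := by
        intro m m' hmm
        have := congrArg Fin.val hmm
        simp only [c] at this
        have h2 : m.val * 5 ^ k = m'.val * 5 ^ k := by omega
        exact Fin.ext (Nat.eq_of_mul_eq_mul_right hpos h2)
      have cne : ∀ m, c m ≠ 0 := by
        intro m hm
        have := congrArg Fin.val hm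
        simp only [c, Fin.val_zero] at this
        omega
      have hz : ∃ z : Fin (N + 1), z ≠ 0 ∧ ∀ m, z ≠ c m := by
        by_contra hno
        push Not at hno
        have hsub : (univ : Finset (Fin (N + 1))) ⊆ insert 0 (univ.image c) := by
          intro z _
          rw [Finset.mem_insert, Finset.mem_image]
          by_cases hz : z = 0
          · exact Or.inl hz
          · obtain ⟨m, hm⟩ := hno z hz
            exact Or.inr ⟨m, Finset.mem_univ _, hm.symm⟩
        have h1 := Finset.card_le_card hsub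
        have h2 := Finset.card_insert_le (0 : Fin (N + 1)) (univ.image c)
        have h3 : (univ.image c).card ≤ 6 := by
          calc _ ≤ (univ : Finset (Fin 6)).card := Finset.card_image_le
            _ = 6 := by simp
        simp only [Finset.card_univ, Fintype.card_fin] at h1
        omega
      obtain ⟨z, hz0, hzc⟩ := hz
      have hadj : (BP.step (plus W6 none) G).Adj i j := by
        right
        refine ⟨fun e => ?_, ?_⟩
        · rw [← c0, ← c5] at e
          exact absurd (cinj e) (by decide)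
        · refine newCopy_plus_of (a := 0) (c := c) (z := z) ⟨cinj, cne, ?_, ?_⟩ hz0 hzc
            (Or.inl (hB.hub z hz0)) (Or.inr (Or.inl ⟨5, ?_⟩))
          · intro m
            exact Or.inl (hB.hub _ (cne m))
          · intro m
            by_cases hm : m = 5
            · right
              subst hm
              have : (5 : Fin 6) + 1 = 0 := by decide
              rw [this, c0, c5, Sym2.eq_swap]
            · left
              apply ih _ _ (cne m)
              have hv : (m + 1).val = m.val + 1 := by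
                revert hm; clear * -; revert m; decide
              simp only [c, hv]
              ring
          · have : (5 : Fin 6) + 1 = 0 := by decide
            rw [this, c0, c5, Sym2.eq_swap]
      rw [← hst] at hadj
      exact hadj
  subst hM
  have h1 := main (t + 1) ⟨1, by omega⟩ ⟨1 + 5 ^ (t + 1), by omega⟩
    (fun e => by have := congrArg Fin.val e; simp at this) rfl
  have h2 := hB.le1 _ _ h1.symm
    (fun e => by have := congrArg Fin.val e; simp at this)
    (fun e => by have := congrArg Fin.val e; simp at this)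
  have h3 : (5 : ℕ) ^ (t + 1) = 5 * 5 ^ t := by rw [pow_succ]; ring
  have h4 : 0 < (5 : ℕ) ^ t := by positivity
  push_cast at h2
  have h5 : ((5 : ℤ) ^ (t + 1)) = 5 * 5 ^ t := by rw [pow_succ]; ring
  have h6 : (0 : ℤ) < 5 ^ t := by positivity
  rw [h5] at h2
  omega

lemma Mx_plus_unbounded (T : ℕ) : T + 1 ≤ Mx (plus W6 none) (5 ^ (T + 1) + 10 + 1) := by
  refine le_trans ?_ (tau_le_Mx (plus W6 none) (host (5 ^ (T + 1) + 10)))
  apply le_tau
  intro t ht
  apply not_stable
  have : 5 ^ (t + 1) ≤ 5 ^ (T + 1) := Nat.pow_le_pow_right (by norm_num) (by omega)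
  omega

end Pool.Agent.H195.BP
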