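import Mathlib

/-! The `C₆`-process stabilises in logarithmic time unless it creates a fan. -/

namespace Pool.Agent.H195.BP

variable {β : Type}

/-- A path with six vertices. -/
structure P6 (F : SimpleGraph β) (p0 p1 p2 p3 p4 p5 : β) : Prop where
  nd : [p0, p1, p2, p3, p4, p5].Nodup
  r0 : F.Adj p0 p1
  r1 : F.Adj p1 p2
  r2 : F.Adj p2 p3
  r3 : F.Adj p3 p4
  r4 : F.Adj p4 p5

lemma P6.of {F : SimpleGraph β} {p0 p1 p2 p3 p4 p5 : β} (r0 : F.Adj p0 p1) (r1 : F.Adj p1 p2)
    (r2 : F.Adj p2 p3) (r3 : F.Adj p3 p4) (r4 : F.Adj p4 p5) (h02 : p0 ≠ p2) (h03 : p0 ≠ p3)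
    (h04 : p0 ≠ p4) (h05 : p0 ≠ p5) (h13 : p1 ≠ p3) (h14 : p1 ≠ p4) (h15 : p1 ≠ p5)
    (h24 : p2 ≠ p4) (h25 : p2 ≠ p5) (h35 : p3 ≠ p5) : P6 F p0 p1 p2 p3 p4 p5 := by
  refine ⟨?_, r0, r1, r2, r3, r4⟩
  have := r0.ne
  have := r1.ne
  have := r2.ne
  have := r3.ne
  have := r4.ne
  simp only [List.nodup_cons, List.mem_cons, List.not_mem_nil, or_false, not_or]
  simp_all

lemma P6.symm {F : SimpleGraph β} {p0 p1 p2 p3 p4 p5 : β} (h : P6 F p0 p1 p2 p3 p4 p5) :
    P6 F p5 p4 p3 p2 p1 p0 := by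
  refine ⟨?_, h.r4.symm, h.r3.symm, h.r2.symm, h.r1.symm, h.r0.symm⟩
  have := List.nodup_reverse.2 h.nd
  simpa using this

lemma P6.mono {F F' : SimpleGraph β} (hF : F ≤ F') {p0 p1 p2 p3 p4 p5 : β}
    (h : P6 F p0 p1 p2 p3 p4 p5) : P6 F' p0 p1 p2 p3 p4 p5 :=
  ⟨h.nd, hF h.r0, hF h.r1, hF h.r2, hF h.r3, hF h.r4⟩

lemma P6.ne05 {F : SimpleGraph β} {p0 p1 p2 p3 p4 p5 : β} (h : P6 F p0 p1 p2 p3 p4 p5) :
    p0 ≠ p5 := by
  have := h.nd
  simp only [List.nodup_cons, List.mem_cons, List.not_mem_nil, or_false, not_or] at this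
  tauto

/-- One round of the `C₆`-process. -/
def c6 (F : SimpleGraph β) : SimpleGraph β where
  Adj x y := F.Adj x y ∨ ∃ p1 p2 p3 p4, P6 F x p1 p2 p3 p4 y
  symm := ⟨by
    rintro x y (h | ⟨p1, p2, p3, p4, h⟩)
    · exact Or.inl h.symm
    · exact Or.inr ⟨p4, p3, p2, p1, h.symm⟩⟩
  loopless := ⟨by
    rintro x (h | ⟨p1, p2, p3, p4, h⟩)
    · exact F.loopless.irrefl x h
    · exact h.ne05 rfl⟩

lemma c6_of {F : SimpleGraph β} {p0 p1 p2 p3 p4 p5 : β} (h : P6 F p0 p1 p2 p3 p4 p5) :
    (c6 F).Adj p0 p5 := Or.inr ⟨_, _, _, _, h⟩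

lemma le_c6 (F : SimpleGraph β) : F ≤ c6 F := fun _ _ h => Or.inl h

/-- The `C₆`-process. -/
def F6 (F : SimpleGraph β) (t : ℕ) : SimpleGraph β := c6^[t] F

lemma F6_succ (F : SimpleGraph β) (t : ℕ) : F6 F (t + 1) = c6 (F6 F t) :=
  Function.iterate_succ_apply' _ _ _

lemma F6_mono (F : SimpleGraph β) : Monotone (F6 F) :=
  monotone_nat_of_le_succ fun t => by rw [F6_succ]; exact le_c6 _

lemma c6_reach {F : SimpleGraph β} {x y : β} (h : (c6 F).Reachable x y) : F.Reachable x y := by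
  obtain ⟨w⟩ := h
  induction w with
  | nil => exact SimpleGraph.Reachable.refl _
  | cons h _ ih =>
    refine SimpleGraph.Reachable.trans ?_ ih
    rcases h with h | ⟨p1, p2, p3, p4, h⟩
    · exact h.reachable
    · exact h.r0.reachable.trans (h.r1.reachable.trans (h.r2.reachable.trans
        (h.r3.reachable.trans h.r4.reachable)))

lemma F6_reach {F : SimpleGraph β} {t : ℕ} {x y : β} (h : (F6 F t).Reachable x y) :
    F.Reachable x y := by
  induction t with
  | zero => exact h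
  | succ t ih =>
    rw [F6_succ] at h
    exact ih (c6_reach h)

lemma reach_F6 {F : SimpleGraph β} (t : ℕ) {x y : β} (h : F.Reachable x y) :
    (F6 F t).Reachable x y := h.mono (F6_mono F (Nat.zero_le t))

/-! ### distances contract -/

lemma c6_of_dist {F : SimpleGraph β} {u v : β} (hr : F.Reachable u v) (hd : F.dist u v = 5) :
    (c6 F).Adj u v := by
  obtain ⟨w, hw⟩ := hr.exists_walk_length_eq_dist
  have hp : w.IsPath := w.isPath_of_length_eq_dist hw
  have hl : w.length = 5 := by rw [hw, hd]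
  have hadj : ∀ i, i < 5 → F.Adj (w.getVert i) (w.getVert (i + 1)) := by
    intro i hi
    exact w.adj_getVert_succ (by omega)
  have hinj : ∀ i j, i ≤ 5 → j ≤ 5 → i ≠ j → w.getVert i ≠ w.getVert j := by
    intro i j hi hj hij he
    exact hij (hp.getVert_injOn (by simp; omega) (by simp; omega) he)
  have h0 : w.getVert 0 = u := w.getVert_zero
  have h5 : w.getVert 5 = v := by rw [← hl]; exact w.getVert_length
  have := P6.of (hadj 0 (by omega)) (hadj 1 (by omega)) (hadj 2 (by omega)) (hadj 3 (by omega))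
    (hadj 4 (by omega))
    (hinj 0 2 (by omega) (by omega) (by omega)) (hinj 0 3 (by omega) (by omega) (by omega))
    (hinj 0 4 (by omega) (by omega) (by omega)) (hinj 0 5 (by omega) (by omega) (by omega))
    (hinj 1 3 (by omega) (by omega) (by omega)) (hinj 1 4 (by omega) (by omega) (by omega))
    (hinj 1 5 (by omega) (by omega) (by omega)) (hinj 2 4 (by omega) (by omega) (by omega))
    (hinj 2 5 (by omega) (by omega) (by omega)) (hinj 3 5 (by omega) (by omega) (by omega))
  have h6 := c6_of this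
  rw [h0] at h6
  have h7 : w.getVert (4 + 1) = v := h5
  rw [h7] at h6
  exact h6

lemma contract {F : SimpleGraph β} (d : ℕ) : ∀ u v, F.Reachable u v → F.dist u v = d →
    (c6 F).dist u v ≤ d / 5 + d % 5 := by
  induction d using Nat.strong_induction_on with
  | _ d ih =>
    intro u v hr hd
    by_cases h5 : d < 5
    · have h1 : (c6 F).dist u v ≤ F.dist u v :=
        hr.dist_anti (le_c6 F)
      rw [Nat.div_eq_of_lt h5, Nat.mod_eq_of_lt h5, zero_add, ← hd]
      exact h1
    · push Not at h5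
      obtain ⟨w, hw⟩ := hr.exists_walk_length_eq_dist
      have hl : w.length = d := by rw [hw, hd]
      obtain ⟨m, r1, r2, d1, d2⟩ : ∃ m, F.Reachable u m ∧ F.Reachable m v ∧ F.dist u m ≤ 5 ∧
          F.dist m v ≤ d - 5 := by
        refine ⟨w.getVert 5, ⟨w.take 5⟩, ⟨w.drop 5⟩, ?_, ?_⟩
        · have := SimpleGraph.dist_le (w.take 5)
          rw [SimpleGraph.Walk.take_length] at this
          omega
        · have := SimpleGraph.dist_le (w.drop 5)
          rw [SimpleGraph.Walk.drop_length] at this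
          omega
      have d3 : F.dist u v ≤ F.dist u m + F.dist m v := r1.dist_triangle_left v
      have e1 : F.dist u m = 5 := by omega
      have e2 : F.dist m v = d - 5 := by omega
      have h1 : (c6 F).Adj u m := c6_of_dist r1 e1
      have h2 := ih (d - 5) (by omega) m v r2 e2
      have h3 : (c6 F).dist u v ≤ (c6 F).dist u m + (c6 F).dist m v :=
        h1.reachable.dist_triangle_left v
      have h4 : (c6 F).dist u m = 1 := SimpleGraph.dist_eq_one_iff_adj.2 h1
      omega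

lemma near_all {F : SimpleGraph β} [Finite β] {k : ℕ} (hk : Nat.card β ≤ 5 ^ k) (j : ℕ)
    (hj : j ≤ k) : ∀ u v, F.Reachable u v → (F6 F j).dist u v ≤ 5 ^ (k - j) + 5 := by
  induction j with
  | zero =>
    intro u v h
    obtain ⟨w, hw⟩ := h.exists_walk_length_eq_dist
    have hp : w.IsPath := w.isPath_of_length_eq_dist hw
    have : Fintype β := Fintype.ofFinite β
    have h1 := hp.length_lt
    rw [← Nat.card_eq_fintype_card] at h1
    show F.dist u v ≤ _
    rw [Nat.sub_zero]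
    omega
  | succ j ih =>
    intro u v h
    have h1 := ih (by omega) u v h
    have h2 := contract _ u v (reach_F6 j h) rfl
    rw [F6_succ]
    have h3 : 5 ^ (k - j) = 5 * 5 ^ (k - (j + 1)) := by
      rw [← pow_succ']
      congr 1
      omega
    omega

lemma near4 {F : SimpleGraph β} [Finite β] {k t : ℕ} (hk : Nat.card β ≤ 5 ^ k) (ht : k + 1 ≤ t)
    {u v : β} (h : F.Reachable u v) : (F6 F t).dist u v ≤ 4 := by
  have h1 := near_all hk k le_rfl u v h
  rw [Nat.sub_self, pow_zero] at h1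
  have h2 := contract _ u v (reach_F6 k h) rfl
  rw [← F6_succ] at h2
  have h3 : (F6 F t).dist u v ≤ (F6 F (k + 1)).dist u v :=
    (reach_F6 _ h).dist_anti (F6_mono F ht)
  omega

/-! ### the core -/

/-- A `K₃,₃`. -/
structure K33 (F : SimpleGraph β) (x y : Fin 3 → β) : Prop where
  ix : Function.Injective x
  iy : Function.Injective y
  adj : ∀ i j, F.Adj (x i) (y j)

lemma K33.symm {F : SimpleGraph β} {x y : Fin 3 → β} (h : K33 F x y) : K33 F y x :=
  ⟨h.iy, h.ix, fun i j => (h.adj j i).symm⟩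

lemma K33.mono {F F' : SimpleGraph β} (hF : F ≤ F') {x y : Fin 3 → β} (h : K33 F x y) :
    K33 F' x y := ⟨h.ix, h.iy, fun i j => hF (h.adj i j)⟩

lemma K33.xne {F : SimpleGraph β} {x y : Fin 3 → β} (h : K33 F x y) {i j : Fin 3} (hij : i ≠ j) :
    x i ≠ x j := fun e => hij (h.ix e)

lemma K33.yne {F : SimpleGraph β} {x y : Fin 3 → β} (h : K33 F x y) {i j : Fin 3} (hij : i ≠ j) :
    y i ≠ y j := fun e => hij (h.iy e)

/-- `v` is in the core or adjacent to it. -/
def NearC (F : SimpleGraph β) (x y : Fin 3 → β) (v : β) : Prop :=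
  (∃ i, v = x i) ∨ (∃ i, v = y i) ∨ (∃ i, F.Adj v (x i)) ∨ ∃ i, F.Adj v (y i)

lemma NearC.symm {F : SimpleGraph β} {x y : Fin 3 → β} {v : β} (h : NearC F x y v) :
    NearC F y x v := by
  rcases h with h | h | h | h
  · exact Or.inr (Or.inl h)
  · exact Or.inl h
  · exact Or.inr (Or.inr (Or.inr h))
  · exact Or.inr (Or.inr (Or.inl h))

lemma NearC.mono {F F' : SimpleGraph β} (hF : F ≤ F') {x y : Fin 3 → β} {v : β}
    (h : NearC F x y v) : NearC F' x y v := by
  rcases h with h | h | ⟨i, h⟩ | ⟨i, h⟩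
  · exact Or.inl h
  · exact Or.inr (Or.inl h)
  · exact Or.inr (Or.inr (Or.inl ⟨i, hF h⟩))
  · exact Or.inr (Or.inr (Or.inr ⟨i, hF h⟩))

lemma grow {F : SimpleGraph β} {x y : Fin 3 → β} (h : K33 F x y) {v w : β} (hw : NearC F x y w)
    (hvw : F.Adj v w) : NearC (c6 F) x y v := by
  by_cases h1 : ∃ i, v = x i
  · exact Or.inl h1
  by_cases h2 : ∃ i, v = y i
  · exact Or.inr (Or.inl h2)
  by_cases h3 : ∃ i, w = x i
  · obtain ⟨i, rfl⟩ := h3
    exact Or.inr (Or.inr (Or.inl ⟨i, Or.inl hvw⟩))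
  by_cases h4 : ∃ i, w = y i
  · obtain ⟨i, rfl⟩ := h4
    exact Or.inr (Or.inr (Or.inr ⟨i, Or.inl hvw⟩))
  push Not at h1 h2 h3 h4
  rcases hw with ⟨i, hi⟩ | ⟨i, hi⟩ | ⟨i, hi⟩ | ⟨i, hi⟩
  · exact absurd hi (h3 i)
  · exact absurd hi (h4 i)
  · -- v w x_i y_0 x_j y_1
    obtain ⟨j, hj⟩ : ∃ j : Fin 3, j ≠ i := by clear * -; revert i; decide
    refine Or.inr (Or.inr (Or.inr ⟨1, c6_of (P6.of hvw hi (h.adj i 0) (h.adj j 0).symm (h.adj j 1)
      (h1 i) (h2 0) (h1 j) (h2 1) (h4 0) (h3 j) (h4 1) ?_ (h.adj i 1).ne ?_)⟩))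
    · exact h.xne hj.symm
    · exact h.yne (by decide)
  · obtain ⟨j, hj⟩ : ∃ j : Fin 3, j ≠ i := by clear * -; revert i; decide
    refine Or.inr (Or.inr (Or.inl ⟨1, c6_of (P6.of hvw hi (h.adj 0 i).symm (h.adj 0 j)
      (h.adj 1 j).symm
      (h2 i) (h1 0) (h2 j) (h1 1) (h3 0) (h4 j) (h3 1) ?_ (h.adj 1 i).ne.symm ?_)⟩))
    · exact h.yne hj.symm
    · exact h.xne (by decide)

lemma K33.walk {F : SimpleGraph β} {x y : Fin 3 → β} (t : ℕ) (h : K33 (F6 F t) x y) (v : β)
    (m : ℕ) : ∀ u (w : (F6 F t).Walk u v), w.length ≤ m → NearC (F6 F t) x y v →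
    NearC (F6 F (t + m)) x y u := by
  induction m with
  | zero =>
    intro u w hw hv
    have : u = v := w.eq_of_length_eq_zero (by omega)
    rw [this]
    exact hv
  | succ m ih =>
    intro u w hw hv
    cases w with
    | nil => exact hv.mono (F6_mono F (by omega))
    | @cons _ u' _ hu w' =>
      have h1 : w'.length ≤ m := by
        rw [SimpleGraph.Walk.length_cons] at hw
        omega
      have h2 := ih u' w' h1 hv
      rw [← add_assoc, F6_succ]
      exact grow (h.mono (F6_mono F (by omega))) h2 (F6_mono F (by omega) hu)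

lemma full_x {F : SimpleGraph β} {x y : Fin 3 → β} (h : K33 F x y) {v : β}
    (h1 : ∀ i, v ≠ x i) (h2 : ∀ i, v ≠ y i) {j : Fin 3} (hj : F.Adj v (x j)) :
    ∀ i, (c6 F).Adj v (x i) := by
  intro i
  by_cases hij : i = j
  · rw [hij]; exact Or.inl hj
  · obtain ⟨k, hk1, hk2⟩ : ∃ k : Fin 3, k ≠ i ∧ k ≠ j := by
      clear * -; revert i j; decide
    -- v x_j y_0 x_k y_1 x_i
    refine c6_of (P6.of hj (h.adj j 0) (h.adj k 0).symm (h.adj k 1) (h.adj i 1).symm
      (h2 0) (h1 k) (h2 1) (h1 i) (h.xne hk2.symm) (h.adj j 1).ne (h.xne (Ne.symm hij))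
      (h.yne (by decide)) (h.adj i 0).ne.symm (h.xne hk1))

/-- every vertex near the core becomes adjacent to all of one side -/
lemma typed {F : SimpleGraph β} {x y : Fin 3 → β} (h : K33 F x y) {v : β} (hv : NearC F x y v) :
    (∀ i, (c6 F).Adj v (x i)) ∨ (∀ i, (c6 F).Adj v (y i)) := by
  by_cases h1 : ∃ i, v = x i
  · obtain ⟨i, rfl⟩ := h1
    exact Or.inr fun j => Or.inl (h.adj i j)
  by_cases h2 : ∃ i, v = y i
  · obtain ⟨i, rfl⟩ := h2
    exact Or.inl fun j => Or.inl (h.adj j i).symm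
  push Not at h1 h2
  rcases hv with ⟨i, hi⟩ | ⟨i, hi⟩ | ⟨i, hi⟩ | ⟨i, hi⟩
  · exact absurd hi (h1 i)
  · exact absurd hi (h2 i)
  · exact Or.inl (full_x h h1 h2 hi)
  · exact Or.inr (full_x h.symm h2 h1 hi)

lemma cross {F : SimpleGraph β} {x y : Fin 3 → β} (h : K33 F x y) {u v : β} (huv : u ≠ v)
    (hu : ∀ i, F.Adj u (y i)) (hv : ∀ i, F.Adj v (x i)) : (c6 F).Adj u v := by
  obtain ⟨i, i', hii, hi, hi'⟩ : ∃ i i' : Fin 3, i ≠ i' ∧ y i ≠ v ∧ y i' ≠ v := by
    by_cases h0 : ∃ i, y i = v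
    · obtain ⟨i, hi⟩ := h0
      obtain ⟨a, b, hab, ha, hb⟩ : ∃ a b : Fin 3, a ≠ b ∧ a ≠ i ∧ b ≠ i := by
        clear * -; revert i; decide
      exact ⟨a, b, hab, fun e => ha (h.iy (e.trans hi.symm)), fun e => hb (h.iy (e.trans hi.symm))⟩
    · push Not at h0
      exact ⟨0, 1, by decide, h0 0, h0 1⟩
  obtain ⟨j, j', hjj, hj, hj'⟩ : ∃ i i' : Fin 3, i ≠ i' ∧ x i ≠ u ∧ x i' ≠ u := by
    by_cases h0 : ∃ i, x i = u
    · obtain ⟨i, hi⟩ := h0
      obtain ⟨a, b, hab, ha, hb⟩ : ∃ a b : Fin 3, a ≠ b ∧ a ≠ i ∧ b ≠ i := by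
        clear * -; revert i; decide
      exact ⟨a, b, hab, fun e => ha (h.ix (e.trans hi.symm)), fun e => hb (h.ix (e.trans hi.symm))⟩
    · push Not at h0
      exact ⟨0, 1, by decide, h0 0, h0 1⟩
  -- u y_i x_j y_i' x_j' v
  exact c6_of (P6.of (hu i) (h.adj j i).symm (h.adj j i') (h.adj j' i').symm (hv j').symm
    hj.symm (hu i').ne hj'.symm huv (h.yne hii) (h.adj j' i).ne.symm hi (h.xne hjj)
    (hv j).ne.symm hi')

/-- A fan: `b` adjacent to all vertices of a path with five vertices. -/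
structure Fan (F : SimpleGraph β) (b p1 p2 p3 p4 p5 : β) : Prop where
  nd : [p1, p2, p3, p4, p5].Nodup
  s1 : F.Adj b p1
  s2 : F.Adj b p2
  s3 : F.Adj b p3
  s4 : F.Adj b p4
  s5 : F.Adj b p5
  r1 : F.Adj p1 p2
  r2 : F.Adj p2 p3
  r3 : F.Adj p3 p4
  r4 : F.Adj p4 p5

def HasFan (F : SimpleGraph β) : Prop := ∃ b p1 p2 p3 p4 p5, Fan F b p1 p2 p3 p4 p5

lemma fan_of_same {F : SimpleGraph β} {x y : Fin 3 → β} (h : K33 F x y) {u v : β}
    (huv : F.Adj u v) (hu : ∀ i, F.Adj u (x i)) (hv : ∀ i, F.Adj v (x i)) : HasFan (c6 F) := by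
  obtain ⟨j, hj, hj'⟩ : ∃ j, y j ≠ u ∧ y j ≠ v := by
    by_contra hc
    push Not at hc
    have key : ∀ i j k : Fin 3, i ≠ j → i ≠ k → j ≠ k → False := by
      intro i j k hij hik hjk
      by_cases e1 : y i = u
      · have e2 := hc j (fun e => hij (h.iy (e1.trans e.symm)))
        have e3 := hc k (fun e => hik (h.iy (e1.trans e.symm)))
        exact hjk (h.iy (e2.trans e3.symm))
      · have e1' := hc i e1
        by_cases e2 : y j = u
        · have e3 := hc k (fun e => hjk (h.iy (e2.trans e.symm)))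
          exact hik (h.iy (e1'.trans e3.symm))
        · exact hij (h.iy (e1'.trans (hc j e2).symm))
    exact key 0 1 2 (by decide) (by decide) (by decide)
  have hxx : ∀ a b c : Fin 3, a ≠ b → a ≠ c → b ≠ c → (c6 F).Adj (x a) (x b) := by
    intro a b c hab hac hbc
    -- x_a u v x_c y_j x_b
    exact c6_of (P6.of (hu a).symm huv (hv c) (h.adj c j) (h.adj b j).symm
      (hv a).ne.symm (h.xne hac) (h.adj a j).ne (h.xne hab) (hu c).ne hj.symm (hu b).ne
      hj'.symm (hv b).ne (h.xne hbc.symm))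
  have a01 := hxx 0 1 2 (by decide) (by decide) (by decide)
  have a02 := hxx 0 2 1 (by decide) (by decide) (by decide)
  refine ⟨x 0, y 0, x 1, y 1, x 2, y 2, ?_, Or.inl (h.adj 0 0), a01, Or.inl (h.adj 0 1), a02,
    Or.inl (h.adj 0 2), Or.inl (h.adj 1 0).symm, Or.inl (h.adj 1 1), Or.inl (h.adj 2 1).symm,
    Or.inl (h.adj 2 2)⟩
  have n1 := (h.adj 1 0).ne
  have n2 := (h.adj 2 0).ne
  have n3 := (h.adj 1 1).ne
  have n4 := (h.adj 2 1).ne
  have n5 := (h.adj 1 2).ne
  have n6 := (h.adj 2 2).ne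
  have m1 := h.xne (i := 1) (j := 2) (by decide)
  have m2 := h.yne (i := 0) (j := 1) (by decide)
  have m3 := h.yne (i := 0) (j := 2) (by decide)
  have m4 := h.yne (i := 1) (j := 2) (by decide)
  simp only [List.nodup_cons, List.mem_cons, List.not_mem_nil, or_false, not_or,
    List.nodup_nil, and_true, not_false_eq_true]
  exact ⟨⟨n1.symm, m2, n2.symm, m3⟩, ⟨n3, m1, n5⟩, ⟨n4.symm, m4⟩, n6⟩

/-! ### the main lemma -/

lemma Fan.mono {F F' : SimpleGraph β} (hF : F ≤ F') {b p1 p2 p3 p4 p5 : β}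
    (h : Fan F b p1 p2 p3 p4 p5) : Fan F' b p1 p2 p3 p4 p5 :=
  ⟨h.nd, hF h.s1, hF h.s2, hF h.s3, hF h.s4, hF h.s5, hF h.r1, hF h.r2, hF h.r3, hF h.r4⟩

/-- If no new edge appears in the component `Q` in round `s + 1`, none appears later. -/
lemma freeze {F : SimpleGraph β} {q : β} {s : ℕ}
    (h : ∀ a b, F.Reachable q a → F.Reachable q b → (F6 F (s + 1)).Adj a b → (F6 F s).Adj a b)
    (t : ℕ) (hst : s ≤ t) :
    ∀ a b, F.Reachable q a → F.Reachable q b → (F6 F t).Adj a b → (F6 F s).Adj a b := by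
  induction t, hst using Nat.le_induction with
  | base => exact fun a b _ _ h => h
  | succ t hst ih =>
    intro a b ha hb hab
    rw [F6_succ] at hab
    rcases hab with hab | ⟨p1, p2, p3, p4, w⟩
    · exact ih a b ha hb hab
    · have g : ∀ {c d}, F.Reachable q c → (F6 F t).Adj c d → F.Reachable q d :=
        fun hc hcd => hc.trans (F6_reach hcd.reachable)
      have q1 := g ha w.r0
      have q2 := g q1 w.r1
      have q3 := g q2 w.r2
      have q4 := g q3 w.r3
      apply h a b ha hb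
      rw [F6_succ]
      exact c6_of ⟨w.nd, ih _ _ ha q1 w.r0, ih _ _ q1 q2 w.r1, ih _ _ q2 q3 w.r2,
        ih _ _ q3 q4 w.r3, ih _ _ q4 hb w.r4⟩

lemma persist {F : SimpleGraph β} {u v : β} {t : ℕ} (hr : F.Reachable u v)
    (h1 : (F6 F (t + 1)).Adj u v) (h2 : ¬ (F6 F t).Adj u v) (s : ℕ) (hs : s ≤ t) :
    ∃ a b, F.Reachable u a ∧ F.Reachable u b ∧ (F6 F (s + 1)).Adj a b ∧ ¬ (F6 F s).Adj a b := by
  by_contra hc
  push Not at hc
  have := freeze hc (t + 1) (by omega) u v (SimpleGraph.Reachable.refl _) hr h1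
  exact h2 (F6_mono F hs this)

/-- counting -/
lemma outside {F : SimpleGraph β} {u v : β} {t : ℕ} (ht : 36 ≤ t) (hr : F.Reachable u v)
    (h1 : (F6 F (t + 1)).Adj u v) (h2 : ¬ (F6 F t).Adj u v) (c : Fin 6 → β) :
    ∃ w, F.Reachable u w ∧ ∀ i, w ≠ c i := by
  classical
  by_contra hc
  push Not at hc
  let E : ℕ → Finset (Fin 6 × Fin 6) := fun s =>
    Finset.univ.filter fun e => (F6 F s).Adj (c e.1) (c e.2)
  have hss : ∀ s ≤ t, (E s).card < (E (s + 1)).card := by
    intro s hs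
    apply Finset.card_lt_card
    rw [Finset.ssubset_iff_of_subset]
    · obtain ⟨a, b, ha, hb, hab, hab'⟩ := persist hr h1 h2 s hs
      obtain ⟨i, rfl⟩ := hc a ha
      obtain ⟨j, rfl⟩ := hc b hb
      exact ⟨(i, j), by simpa [E] using hab, by simpa [E] using hab'⟩
    · intro e he
      simp only [E, Finset.mem_filter, Finset.mem_univ, true_and] at he ⊢
      exact F6_mono F (by omega) he
  have hge : ∀ s ≤ t + 1, s ≤ (E s).card := by
    intro s
    induction s with
    | zero => intro _; omega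
    | succ s ih =>
      intro hs
      have := ih (by omega)
      have := hss s (by omega)
      omega
  have h3 := hge (t + 1) le_rfl
  have h4 : (E (t + 1)).card ≤ 36 := by
    refine (Finset.card_le_univ _).trans ?_
    simp
  omega

lemma boundary {F : SimpleGraph β} {u w : β} (h : F.Reachable u w) (S : Set β) (hu : u ∈ S)
    (hw : w ∉ S) : ∃ a b, a ∈ S ∧ b ∉ S ∧ F.Adj a b := by
  obtain ⟨p⟩ := h
  obtain ⟨d, _, h1, h2⟩ := p.exists_boundary_dart S hu hw
  exact ⟨_, _, h1, h2, d.adj⟩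

/-- The core appears in round 3. -/
lemma core {F : SimpleGraph β} {u v : β} {t : ℕ} (ht : 36 ≤ t) (hr : F.Reachable u v)
    (h1 : (F6 F (t + 1)).Adj u v) (h2 : ¬ (F6 F t).Adj u v) :
    ∃ x y, K33 (F6 F 3) x y ∧ F.Reachable u (x 0) := by
  obtain ⟨a, b, ha, hb, hab, hab'⟩ := persist hr h1 h2 0 (by omega)
  rw [F6_succ] at hab
  rcases hab with hab | ⟨c1, c2, c3, c4, w⟩
  · exact absurd hab hab'
  have w : P6 F a c1 c2 c3 c4 b := w
  have hle : F ≤ F6 F 1 := F6_mono F (Nat.zero_le 1)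
  set c : Fin 6 → β := ![a, c1, c2, c3, c4, b] with hcdef
  have hinj : Function.Injective c := by
    rw [← List.nodup_ofFn]
    simpa [c, List.ofFn_succ] using w.nd
  have hcyc : ∀ i, (F6 F 1).Adj (c i) (c (i + 1)) := by
    intro i
    fin_cases i
    exacts [hle w.r0, hle w.r1, hle w.r2, hle w.r3, hle w.r4, (c6_of w).symm]
  have hQ : ∀ i, F.Reachable u (c i) := by
    have q1 := ha.trans w.r0.reachable
    have q2 := q1.trans w.r1.reachable
    have q3 := q2.trans w.r2.reachable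
    have q4 := q3.trans w.r3.reachable
    intro i
    fin_cases i
    exacts [ha, q1, q2, q3, q4, hb]
  obtain ⟨z0, hz0, hz0'⟩ := outside ht hr h1 h2 c
  obtain ⟨e, z, he, hz, hez⟩ := boundary (u := c 0) (w := z0) ((hQ 0).symm.trans hz0)
    (Set.range c) ⟨0, rfl⟩ (by rintro ⟨i, hi⟩; exact hz0' i hi.symm)
  obtain ⟨i, rfl⟩ := he
  have hz : ∀ j, z ≠ c j := fun j e => hz ⟨j, e.symm⟩
  have ne : ∀ {j k : Fin 6}, j ≠ k → c j ≠ c k := fun h e => h (hinj e)
  have L1 : F6 F 1 ≤ F6 F 2 := F6_mono F (by omega)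
  have L2 : F6 F 2 ≤ F6 F 3 := F6_mono F (by omega)
  have A : ∀ j k : Fin 6, k = j + 1 → (F6 F 1).Adj (c j) (c k) := by
    rintro j k rfl; exact hcyc j
  have B : ∀ j k : Fin 6, j = k + 1 → (F6 F 1).Adj (c j) (c k) := by
    rintro j k rfl; exact (hcyc k).symm
  -- z ~ c i at time 1; z ~ c (i+2), c (i+4) at time 2
  have hz0 : (F6 F 1).Adj z (c i) := hle hez.symm
  have hz4 : (F6 F 2).Adj z (c (i + 4)) := by
    rw [F6_succ]
    exact c6_of (P6.of hz0 (A i (i + 1) rfl) (A (i + 1) (i + 2) (by clear * -; revert i; decide))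
      (A (i + 2) (i + 3) (by clear * -; revert i; decide))
      (A (i + 3) (i + 4) (by clear * -; revert i; decide)) (hz _) (hz _) (hz _) (hz _)
      (ne (by clear * -; revert i; decide)) (ne (by clear * -; revert i; decide))
      (ne (by clear * -; revert i; decide)) (ne (by clear * -; revert i; decide))
      (ne (by clear * -; revert i; decide)) (ne (by clear * -; revert i; decide)))
  have hz2 : (F6 F 2).Adj z (c (i + 2)) := by
    rw [F6_succ]
    exact c6_of (P6.of hz0 (B i (i + 5) (by clear * -; revert i; decide))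
      (B (i + 5) (i + 4) (by clear * -; revert i; decide))
      (B (i + 4) (i + 3) (by clear * -; revert i; decide))
      (B (i + 3) (i + 2) (by clear * -; revert i; decide)) (hz _) (hz _) (hz _) (hz _)
      (ne (by clear * -; revert i; decide)) (ne (by clear * -; revert i; decide))
      (ne (by clear * -; revert i; decide)) (ne (by clear * -; revert i; decide))
      (ne (by clear * -; revert i; decide)) (ne (by clear * -; revert i; decide)))
  have hz0' : (F6 F 2).Adj z (c i) := L1 hz0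
  -- c1 c0 w c2 c3 c4
  have d14 : (F6 F 3).Adj (c (i + 1)) (c (i + 4)) := by
    rw [F6_succ]
    exact c6_of (P6.of (L1 (B (i + 1) i rfl)) hz0'.symm hz2
      (L1 (A (i + 2) (i + 3) (by clear * -; revert i; decide)))
      (L1 (A (i + 3) (i + 4) (by clear * -; revert i; decide)))
      (hz _).symm (ne (by clear * -; revert i; decide)) (ne (by clear * -; revert i; decide))
      (ne (by clear * -; revert i; decide)) (ne (by clear * -; revert i; decide))
      (ne (by clear * -; revert i; decide)) (ne (by clear * -; revert i; decide)) (hz _) (hz _)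
      (ne (by clear * -; revert i; decide)))
  -- c3 c4 w c2 c1 c0
  have d30 : (F6 F 3).Adj (c (i + 3)) (c i) := by
    rw [F6_succ]
    exact c6_of (P6.of (L1 (A (i + 3) (i + 4) (by clear * -; revert i; decide))) hz4.symm hz2
      (L1 (B (i + 2) (i + 1) (by clear * -; revert i; decide)))
      (L1 (B (i + 1) i rfl))
      (hz _).symm (ne (by clear * -; revert i; decide)) (ne (by clear * -; revert i; decide))
      (ne (by clear * -; revert i; decide)) (ne (by clear * -; revert i; decide))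
      (ne (by clear * -; revert i; decide)) (ne (by clear * -; revert i; decide)) (hz _) (hz _)
      (ne (by clear * -; revert i; decide)))
  -- c5 c0 w c4 c3 c2
  have d52 : (F6 F 3).Adj (c (i + 5)) (c (i + 2)) := by
    rw [F6_succ]
    exact c6_of (P6.of (L1 (A (i + 5) i (by clear * -; revert i; decide))) hz0'.symm hz4
      (L1 (B (i + 4) (i + 3) (by clear * -; revert i; decide)))
      (L1 (B (i + 3) (i + 2) (by clear * -; revert i; decide)))
      (hz _).symm (ne (by clear * -; revert i; decide)) (ne (by clear * -; revert i; decide))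
      (ne (by clear * -; revert i; decide)) (ne (by clear * -; revert i; decide))
      (ne (by clear * -; revert i; decide)) (ne (by clear * -; revert i; decide)) (hz _) (hz _)
      (ne (by clear * -; revert i; decide)))
  have L13 : F6 F 1 ≤ F6 F 3 := F6_mono F (by omega)
  refine ⟨fun j => c (i + ![0, 2, 4] j), fun j => c (i + ![1, 3, 5] j), ⟨?_, ?_, ?_⟩, hQ _⟩
  · intro j k hjk
    have := hinj hjk
    clear * - this
    revert this j k i
    decide
  · intro j k hjk
    have := hinj hjk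
    clear * - this
    revert this j k i
    decide
  · intro j k
    have e0 : i + 0 = i := by clear * -; revert i; decide
    fin_cases j <;> fin_cases k
    · exact L13 (A _ _ (by clear * -; revert i; decide))
    · show (F6 F 3).Adj (c (i + 0)) (c (i + 3))
      rw [e0]; exact d30.symm
    · show (F6 F 3).Adj (c (i + 0)) (c (i + 5))
      exact L13 (B _ _ (by clear * -; revert i; decide))
    · exact L13 (B _ _ (by clear * -; revert i; decide))
    · exact L13 (A _ _ (by clear * -; revert i; decide))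
    · exact d52.symm
    · exact d14.symm
    · exact L13 (B _ _ (by clear * -; revert i; decide))
    · exact L13 (A _ _ (by clear * -; revert i; decide))

/-- The `C₆`-process is stable after `k + 40` rounds, unless it creates a fan. -/
theorem c6_stable {F : SimpleGraph β} [Finite β] {k t : ℕ} (hk : Nat.card β ≤ 5 ^ k)
    (ht : k + 40 ≤ t) (hfan : ¬ HasFan (F6 F (t + 1))) : F6 F (t + 1) = F6 F t := by
  apply le_antisymm _ (F6_mono F (by omega))
  intro u v huv
  by_contra hne
  have hr : F.Reachable u v := F6_reach huv.reachable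
  obtain ⟨x, y, hK, hx0⟩ := core (by omega) hr huv hne
  -- everything in the component is near the core
  have near : ∀ z, F.Reachable u z → NearC (F6 F (k + 3 + 4)) x y z := by
    intro z hz
    have hzx : F.Reachable z (x 0) := hz.symm.trans hx0
    obtain ⟨w, hw⟩ := (reach_F6 (k + 3) hzx).exists_walk_length_eq_dist
    have h4 := near4 (t := k + 3) hk (by omega) hzx
    exact K33.walk (k + 3) (hK.mono (F6_mono F (by omega))) (x 0) 4 z w (by omega)
      (Or.inl ⟨0, rfl⟩)
  have hK7 : K33 (F6 F (k + 3 + 4)) x y := hK.mono (F6_mono F (by omega))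
  have ty : ∀ z, F.Reachable u z → (∀ i, (F6 F (k + 8)).Adj z (x i)) ∨
      (∀ i, (F6 F (k + 8)).Adj z (y i)) := by
    intro z hz
    have := typed hK7 (near z hz)
    rw [← F6_succ] at this
    exact this
  have hK8 : K33 (F6 F (k + 8)) x y := hK.mono (F6_mono F (by omega))
  have hKt : K33 (F6 F t) x y := hK.mono (F6_mono F (by omega))
  have L8 : F6 F (k + 8) ≤ F6 F t := F6_mono F (by omega)
  have cr : ∀ a b, a ≠ b → (∀ i, (F6 F (k + 8)).Adj a (y i)) →
      (∀ i, (F6 F (k + 8)).Adj b (x i)) → (F6 F t).Adj a b := by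
    intro a b hab ha hb
    have := cross hK8 hab ha hb
    rw [← F6_succ] at this
    exact F6_mono F (by omega) this
  have alt : ∀ a b, F.Reachable u a → F.Reachable u b → (F6 F t).Adj a b →
      ((∀ i, (F6 F (k + 8)).Adj a (x i)) ↔ ¬ (∀ i, (F6 F (k + 8)).Adj b (x i))) := by
    intro a b ha hb hab
    constructor
    · intro h h'
      apply hfan
      rw [F6_succ]
      exact fan_of_same hKt hab (fun i => L8 (h i)) (fun i => L8 (h' i))
    · intro h'
      by_contra h
      have h1 := (ty a ha).resolve_left h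
      have h2 := (ty b hb).resolve_left h'
      apply hfan
      rw [F6_succ]
      exact fan_of_same hKt.symm hab (fun i => L8 (h1 i)) (fun i => L8 (h2 i))
  rw [F6_succ] at huv
  rcases huv with huv | ⟨p1, p2, p3, p4, w⟩
  · exact hne huv
  have g : ∀ {c d}, F.Reachable u c → (F6 F t).Adj c d → F.Reachable u d :=
    fun hc hcd => hc.trans (F6_reach hcd.reachable)
  have q0 : F.Reachable u u := SimpleGraph.Reachable.refl _
  have q1 := g q0 w.r0
  have q2 := g q1 w.r1
  have q3 := g q2 w.r2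
  have q4 := g q3 w.r3
  have a0 := alt _ _ q0 q1 w.r0
  have a1 := alt _ _ q1 q2 w.r1
  have a2 := alt _ _ q2 q3 w.r2
  have a3 := alt _ _ q3 q4 w.r3
  have a4 := alt _ _ q4 hr w.r4
  by_cases hu : ∀ i, (F6 F (k + 8)).Adj u (x i)
  · have hv : ¬ ∀ i, (F6 F (k + 8)).Adj v (x i) := by tauto
    have h2 := (ty v hr).resolve_left hv
    exact hne (cr v u w.ne05.symm h2 hu).symm
  · have hv : ∀ i, (F6 F (k + 8)).Adj v (x i) := by tauto
    have h1 := (ty u q0).resolve_left hu
    exact hne (cr u v w.ne05 h1 hv)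

end Pool.Agent.H195.BP
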