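import Pool.Agent.H195.BPWheel
import Pool.Agent.H195.BPSix

/-! The running time for the wheel with a pendant edge at the centre is at most logarithmic. -/

namespace Pool.Agent.H195.BP

variable {β : Type}

/-- The wheel with a pendant edge at its centre. -/
abbrev Hp : SimpleGraph (Option (Option (Fin 6))) := plus W6 none

/-- `a` is adjacent to everything. -/
def Un (G : SimpleGraph β) (a : β) : Prop := ∀ z, z ≠ a → G.Adj a z

lemma Un.mono {G G' : SimpleGraph β} (h : G ≤ G') {a : β} (ha : Un G a) : Un G' a :=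
  fun z hz => h (ha z hz)

/-- A full wheel. -/
structure FW (G : SimpleGraph β) (b : β) (c : Fin 6 → β) : Prop where
  inj : Function.Injective c
  ne : ∀ i, c i ≠ b
  spoke : ∀ i, G.Adj b (c i)
  rim : ∀ i, G.Adj (c i) (c (i + 1))

lemma FW.un {G : SimpleGraph β} {b : β} {c : Fin 6 → β} (w : FW G b c) : Un (step Hp G) b := by
  intro z hz
  by_cases hc : ∃ i, z = c i
  · obtain ⟨i, rfl⟩ := hc
    exact Or.inl (w.spoke i)
  · push Not at hc
    refine Or.inr ⟨hz.symm, newCopy_plus_of (a := b) (c := c) (z := z)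
      ⟨w.inj, w.ne, fun i => Or.inl (w.spoke i), fun i => Or.inl (w.rim i)⟩ hz hc (Or.inr rfl)
      (Or.inr (Or.inr rfl))⟩

lemma fw_of_new {G : SimpleGraph β} {x y a : β} {c : Fin 6 → β} (w : Whl G x y a c)
    (hxy : (step Hp G).Adj x y) : FW (step Hp G) a c := by
  have key : ∀ {p q : β}, G.Adj p q ∨ s(p, q) = s(x, y) → (step Hp G).Adj p q := by
    intro p q h
    rcases h with h | h
    · exact Or.inl h
    · rcases Sym2.eq_iff.1 h with ⟨h1, h2⟩ | ⟨h1, h2⟩
      · rw [h1, h2]; exact hxy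
      · rw [h1, h2]; exact hxy.symm
  exact ⟨w.inj, w.ne, fun i => key (w.spoke i), fun i => key (w.rim i)⟩

section

variable [Fintype β] (h8 : 8 ≤ Fintype.card β)

include h8 in
lemma exists_eighth (a p0 p1 p2 p3 p4 p5 : β) :
    ∃ z, z ≠ a ∧ z ≠ p0 ∧ z ≠ p1 ∧ z ≠ p2 ∧ z ≠ p3 ∧ z ≠ p4 ∧ z ≠ p5 := by
  classical
  have h : ({a, p0, p1, p2, p3, p4, p5} : Finset β).card < (Finset.univ : Finset β).card := by
    have h1 := Finset.card_insert_le a ({p0, p1, p2, p3, p4, p5} : Finset β)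
    have h2 : ({p0, p1, p2, p3, p4, p5} : Finset β).card ≤ 6 := Finset.card_le_six
    rw [Finset.card_univ]
    omega
  obtain ⟨z, _, hz⟩ := Finset.exists_mem_notMem_of_card_lt_card h
  refine ⟨z, ?_⟩
  simpa using hz

include h8 in
/-- With a universal vertex `a`, the `C₆` rule holds outside `a`. -/
lemma low {G : SimpleGraph β} {a : β} (ha : Un G a) {p0 p1 p2 p3 p4 p5 : β}
    (w : P6 G p0 p1 p2 p3 p4 p5) (n0 : p0 ≠ a) (n1 : p1 ≠ a) (n2 : p2 ≠ a) (n3 : p3 ≠ a)
    (n4 : p4 ≠ a) (n5 : p5 ≠ a) : (step Hp G).Adj p0 p5 := by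
  obtain ⟨z, z0, z1, z2, z3, z4, z5, z6⟩ := exists_eighth h8 a p0 p1 p2 p3 p4 p5
  refine Or.inr ⟨w.ne05, newCopy_plus_of (a := a) (c := ![p0, p1, p2, p3, p4, p5]) (z := z)
    (whl_of_rim ⟨w.nd, ?_, ha _ n0, ha _ n1, ha _ n2, ha _ n3, ha _ n4, ha _ n5, w.r0, w.r1, w.r2,
      w.r3, w.r4⟩) z0 ?_ (Or.inl (ha z z0)) (Or.inr (Or.inl ⟨5, Sym2.eq_swap⟩))⟩
  · simp only [List.mem_cons, List.not_mem_nil, or_false, not_or]
    exact ⟨n0.symm, n1.symm, n2.symm, n3.symm, n4.symm, n5.symm⟩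
  · intro i
    fin_cases i
    exacts [z1, z2, z3, z4, z5, z6]

end

/-- New edges in the presence of a universal vertex. -/
lemma high {G : SimpleGraph β} {a : β} (ha : Un G a) {x y : β} (h : (step Hp G).Adj x y) :
    G.Adj x y ∨ (∃ p1 p2 p3 p4, P6 G x p1 p2 p3 p4 y ∧ x ≠ a ∧ p1 ≠ a ∧ p2 ≠ a ∧ p3 ≠ a ∧
      p4 ≠ a ∧ y ≠ a) ∨ ∃ b c, b ≠ a ∧ FW (step Hp G) b c := by
  by_cases hG : G.Adj x y
  · exact Or.inl hG
  right
  have h' := h
  rcases h with h | ⟨hne, h⟩
  · exact absurd h hG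
  obtain ⟨b, c, z, w, hzb, hzc, hbz, hu⟩ := of_newCopy_plus h
  by_cases hb : b = a
  · subst hb
    have hxy : ∀ v, v ≠ b → s(b, v) ≠ s(x, y) := by
      intro v hv he
      rcases Sym2.eq_iff.1 he with ⟨h1, h2⟩ | ⟨h1, h2⟩
      · apply hG; rw [← h1, ← h2]; exact ha v hv
      · apply hG; rw [← h1, ← h2]; exact (ha v hv).symm
    rcases hu with ⟨i, hi⟩ | ⟨i, hi⟩ | hi
    · exact absurd hi (hxy _ (w.ne i))
    · have r := w.rim_case i hi
      have na := r.na
      simp only [List.mem_cons, List.not_mem_nil, or_false, not_or] at na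
      obtain ⟨m0, m1, m2, m3, m4, m5⟩ := na
      have p : P6 G (c (i + 1)) (c (i + 2)) (c (i + 3)) (c (i + 4)) (c (i + 5)) (c i) :=
        ⟨r.nd, r.r0, r.r1, r.r2, r.r3, r.r4⟩
      left
      rcases Sym2.eq_iff.1 hi with ⟨h1, h2⟩ | ⟨h1, h2⟩
      · rw [← h1, ← h2]
        exact ⟨_, _, _, _, p.symm, Ne.symm m5, Ne.symm m4, Ne.symm m3, Ne.symm m2, Ne.symm m1,
          Ne.symm m0⟩
      · rw [← h1, ← h2]
        exact ⟨_, _, _, _, p, Ne.symm m0, Ne.symm m1, Ne.symm m2, Ne.symm m3, Ne.symm m4,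
          Ne.symm m5⟩
    · exact absurd hi (hxy _ hzb)
  · right
    exact ⟨b, c, hb, fw_of_new w h'⟩

/-- Delete the edges at `a`. -/
def del (a : β) (G : SimpleGraph β) : SimpleGraph β where
  Adj x y := G.Adj x y ∧ x ≠ a ∧ y ≠ a
  symm := ⟨fun _ _ h => ⟨h.1.symm, h.2.2, h.2.1⟩⟩
  loopless := ⟨fun x h => G.loopless.irrefl x h.1⟩

lemma del_le (a : β) (G : SimpleGraph β) : del a G ≤ G := fun _ _ h => h.1

lemma del_inj {a : β} {G G' : SimpleGraph β} (h : Un G a) (h' : Un G' a)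
    (he : del a G = del a G') : G = G' := by
  have key : ∀ {A B : SimpleGraph β}, Un B a → del a A = del a B → ∀ x y, A.Adj x y → B.Adj x y := by
    intro A B hB hAB x y hxy
    by_cases hx : x = a
    · subst hx; exact hB y hxy.ne.symm
    by_cases hy : y = a
    · subst hy; exact (hB x hxy.ne).symm
    have : (del a A).Adj x y := ⟨hxy, hx, hy⟩
    rw [hAB] at this
    exact this.1
  ext x y
  exact ⟨key h' he x y, key h he.symm x y⟩

lemma del_step [Fintype β] (h8 : 8 ≤ Fintype.card β) {G : SimpleGraph β} {a : β} (ha : Un G a)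
    (hno : ¬ ∃ b c, b ≠ a ∧ FW (step Hp G) b c) : del a (step Hp G) = c6 (del a G) := by
  ext x y
  constructor
  · rintro ⟨h, hx, hy⟩
    rcases high ha h with h | ⟨p1, p2, p3, p4, w, n0, n1, n2, n3, n4, n5⟩ | h
    · exact Or.inl ⟨h, hx, hy⟩
    · exact c6_of ⟨w.nd, ⟨w.r0, n0, n1⟩, ⟨w.r1, n1, n2⟩, ⟨w.r2, n2, n3⟩, ⟨w.r3, n3, n4⟩,
        ⟨w.r4, n4, n5⟩⟩
    · exact absurd h hno
  · rintro (h | ⟨p1, p2, p3, p4, w⟩)
    · exact ⟨Or.inl h.1, h.2⟩
    · refine ⟨low h8 ha (w.mono (del_le a G)) w.r0.2.1 w.r1.2.1 w.r2.2.1 w.r3.2.1 w.r4.2.1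
        w.r4.2.2, w.r0.2.1, w.r4.2.2⟩

lemma fw_of_fan {G : SimpleGraph β} {a : β} (ha : Un G a) (h : HasFan (del a G)) :
    ∃ b c, b ≠ a ∧ FW G b c := by
  obtain ⟨b, p1, p2, p3, p4, p5, w⟩ := h
  have hb : b ≠ a := w.s1.2.1
  have n1 := w.s1.2.2
  have n2 := w.s2.2.2
  have n3 := w.s3.2.2
  have n4 := w.s4.2.2
  have n5 := w.s5.2.2
  refine ⟨b, ![a, p1, p2, p3, p4, p5], hb, ?_, ?_, ?_, ?_⟩
  · rw [← List.nodup_ofFn]
    have := w.nd
    simp only [List.ofFn_succ, List.ofFn_zero, Matrix.cons_val_zero, Matrix.cons_val_succ]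
    rw [List.nodup_cons]
    refine ⟨?_, this⟩
    simp only [List.mem_cons, List.not_mem_nil, or_false, not_or]
    exact ⟨n1.symm, n2.symm, n3.symm, n4.symm, n5.symm⟩
  · intro i
    fin_cases i
    exacts [hb.symm, w.s1.1.ne.symm, w.s2.1.ne.symm, w.s3.1.ne.symm, w.s4.1.ne.symm,
      w.s5.1.ne.symm]
  · intro i
    fin_cases i
    exacts [(ha b hb).symm, w.s1.1, w.s2.1, w.s3.1, w.s4.1, w.s5.1]
  · intro i
    fin_cases i
    exacts [ha _ n1, w.r1.1, w.r2.1, w.r3.1, w.r4.1, (ha _ n5).symm]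

/-- Two universal vertices and a path with five vertices: complete after two rounds. -/
lemma two_univ [Fintype β] (h8 : 8 ≤ Fintype.card β) {G : SimpleGraph β} {a b q1 q2 q3 q4 q5 : β}
    (ha : Un G a) (hb : Un G b) (hab : a ≠ b) (nd : [q1, q2, q3, q4, q5].Nodup)
    (na : a ∉ [q1, q2, q3, q4, q5]) (nb : b ∉ [q1, q2, q3, q4, q5]) (r1 : G.Adj q1 q2)
    (r2 : G.Adj q2 q3) (r3 : G.Adj q3 q4) (r4 : G.Adj q4 q5) :
    step Hp (step Hp G) = ⊤ := by
  simp only [List.nodup_cons, List.mem_cons, List.not_mem_nil, or_false, not_or,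
    List.nodup_nil, and_true, not_false_eq_true] at nd na nb
  obtain ⟨⟨d12, d13, d14, d15⟩, ⟨d23, d24, d25⟩, ⟨d34, d35⟩, d45⟩ := nd
  obtain ⟨a1, a2, a3, a4, a5⟩ := na
  obtain ⟨b1, b2, b3, b4, b5⟩ := nb
  have L : G ≤ step Hp G := le_step _ _
  have L' : step Hp G ≤ step Hp (step Hp G) := le_step _ _
  have ha' := ha.mono L
  have hb' := hb.mono L
  have e1 : G.Adj b q1 := hb _ (Ne.symm b1)
  have e2 : G.Adj b q2 := hb _ (Ne.symm b2)
  have e3 : G.Adj b q3 := hb _ (Ne.symm b3)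
  have e4 : G.Adj b q4 := hb _ (Ne.symm b4)
  have e5 : G.Adj b q5 := hb _ (Ne.symm b5)
  have ab := Ne.symm hab
  have s13 : (step Hp G).Adj q1 q3 :=
    low h8 ha (P6.of r1 e2.symm e5 r4.symm r3.symm (Ne.symm b1) d15 d14 d13 d25 d24 d23 b4 b3
      (Ne.symm d35)) (Ne.symm a1) (Ne.symm a2) ab (Ne.symm a5) (Ne.symm a4) (Ne.symm a3)
  have s14 : (step Hp G).Adj q1 q4 :=
    low h8 ha (P6.of r1 r2 e3.symm e5 r4.symm d13 (Ne.symm b1) d15 d14 (Ne.symm b2) d25 d24 d35 d34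
      b4) (Ne.symm a1) (Ne.symm a2) (Ne.symm a3) ab (Ne.symm a5) (Ne.symm a4)
  have s15 : (step Hp G).Adj q1 q5 :=
    low h8 ha (P6.of r1 e2.symm e3 r3 r4 (Ne.symm b1) d13 d14 d15 d23 d24 d25 b4 b5 d35)
      (Ne.symm a1) (Ne.symm a2) ab (Ne.symm a3) (Ne.symm a4) (Ne.symm a5)
  have s53 : (step Hp G).Adj q5 q3 :=
    low h8 ha (P6.of r4.symm e4.symm e1 r1 r2 (Ne.symm b5) (Ne.symm d15) (Ne.symm d25)
      (Ne.symm d35) (Ne.symm d14) (Ne.symm d24) (Ne.symm d34) b2 b3 d13)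
      (Ne.symm a5) (Ne.symm a4) ab (Ne.symm a1) (Ne.symm a2) (Ne.symm a3)
  have s52 : (step Hp G).Adj q5 q2 :=
    low h8 ha (P6.of r4.symm r3.symm e3.symm e1 r1 (Ne.symm d35) (Ne.symm b5) (Ne.symm d15)
      (Ne.symm d25) (Ne.symm b4) (Ne.symm d14) (Ne.symm d24) (Ne.symm d13) (Ne.symm d23) b2)
      (Ne.symm a5) (Ne.symm a4) (Ne.symm a3) ab (Ne.symm a1) (Ne.symm a2)
  have z4 : ∀ z, z ≠ a → z ≠ b → z ≠ q1 → z ≠ q2 → z ≠ q3 → z ≠ q4 → z ≠ q5 →
      (step Hp G).Adj z q1 ∧ (step Hp G).Adj z q2 ∧ (step Hp G).Adj z q4 ∧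
      (step Hp G).Adj z q5 := by
    intro z za zb z1 z2 z3 z4 z5
    have ez : G.Adj z b := (hb z zb).symm
    refine ⟨?_, ?_, ?_, ?_⟩
    · exact low h8 ha (P6.of ez e4 r3.symm r2.symm r1.symm z4 z3 z2 z1 b3 b2 b1 (Ne.symm d24)
        (Ne.symm d14) (Ne.symm d13)) za ab (Ne.symm a4) (Ne.symm a3) (Ne.symm a2) (Ne.symm a1)
    · exact low h8 ha (P6.of ez e5 r4.symm r3.symm r2.symm z5 z4 z3 z2 b4 b3 b2 (Ne.symm d35)
        (Ne.symm d25) (Ne.symm d24)) za ab (Ne.symm a5) (Ne.symm a4) (Ne.symm a3) (Ne.symm a2)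
    · exact low h8 ha (P6.of ez e1 r1 r2 r3 z1 z2 z3 z4 b2 b3 b4 d13 d14 d24) za ab
        (Ne.symm a1) (Ne.symm a2) (Ne.symm a3) (Ne.symm a4)
    · exact low h8 ha (P6.of ez e2 r2 r3 r4 z2 z3 z4 z5 b3 b4 b5 d24 d25 d35) za ab
        (Ne.symm a2) (Ne.symm a3) (Ne.symm a4) (Ne.symm a5)
  have s24 : (step Hp (step Hp G)).Adj q2 q4 :=
    low h8 ha' (P6.of (L r2) s13.symm (L e1.symm) (L e5) (L r4.symm) (Ne.symm d12) (Ne.symm b2)
      d25 d24 (Ne.symm b3) d35 d34 d15 d14 b4) (Ne.symm a2) (Ne.symm a3) (Ne.symm a1) ab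
      (Ne.symm a5) (Ne.symm a4)
  have zz : ∀ z, z ≠ a → z ≠ b → z ≠ q1 → z ≠ q2 → z ≠ q3 → z ≠ q4 → z ≠ q5 →
      (step Hp (step Hp G)).Adj z q3 := by
    intro z za zb z1 z2 z3 z4' z5
    have h := z4 z za zb z1 z2 z3 z4' z5
    exact low h8 ha' (P6.of h.1 (L e1.symm) (L e5) (L r4.symm) (L r3.symm) zb z5 z4' z3 d15 d14
      d13 b4 b3 (Ne.symm d35)) za (Ne.symm a1) ab (Ne.symm a5) (Ne.symm a4) (Ne.symm a3)
  have zz' : ∀ z z', z ≠ z' → z ≠ a → z ≠ b → z ≠ q1 → z ≠ q2 → z ≠ q3 → z ≠ q4 → z ≠ q5 →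
      z' ≠ a → z' ≠ b → z' ≠ q1 → z' ≠ q2 → z' ≠ q3 → z' ≠ q4 → z' ≠ q5 →
      (step Hp (step Hp G)).Adj z z' := by
    intro z z' hzz za zb z1 z2 z3 z4' z5 za' zb' z1' z2' z3' z4'' z5'
    have h := z4 z za zb z1 z2 z3 z4' z5
    have h' := z4 z' za' zb' z1' z2' z3' z4'' z5'
    exact low h8 ha' (P6.of h.1 (L r1) (L r2) (L r3) h'.2.2.1.symm z2 z3 z4' hzz d13 d14
      (Ne.symm z1') d24 (Ne.symm z2') (Ne.symm z3')) za (Ne.symm a1) (Ne.symm a2) (Ne.symm a3)
      (Ne.symm a4) za'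
  -- all pairs
  set K := step Hp (step Hp G) with hK
  have uA : ∀ z, z ≠ a → K.Adj a z := ha.mono (L.trans L')
  have uB : ∀ z, z ≠ b → K.Adj b z := hb.mono (L.trans L')
  have L2 : ∀ {x y}, (step Hp G).Adj x y → K.Adj x y := fun h => L' h
  have L3 : ∀ {x y}, G.Adj x y → K.Adj x y := fun h => L' (L h)
  -- q's to everything
  have u1 : ∀ z, z ≠ q1 → K.Adj q1 z := by
    intro z h
    by_cases c0 : z = a
    · subst c0; exact (uA _ h.symm).symm
    by_cases c1 : z = b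
    · subst c1; exact (uB _ h.symm).symm
    by_cases c2 : z = q2
    · subst c2; exact L3 r1
    by_cases c3 : z = q3
    · subst c3; exact L2 s13
    by_cases c4 : z = q4
    · subst c4; exact L2 s14
    by_cases c5 : z = q5
    · subst c5; exact L2 s15
    exact (L2 (z4 z c0 c1 h c2 c3 c4 c5).1).symm
  have u2 : ∀ z, z ≠ q2 → K.Adj q2 z := by
    intro z h
    by_cases c0 : z = a
    · subst c0; exact (uA _ h.symm).symm
    by_cases c1 : z = b
    · subst c1; exact (uB _ h.symm).symm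
    by_cases c2 : z = q1
    · subst c2; exact (u1 _ h.symm).symm
    by_cases c3 : z = q3
    · subst c3; exact L3 r2
    by_cases c4 : z = q4
    · subst c4; exact s24
    by_cases c5 : z = q5
    · subst c5; exact (L2 s52).symm
    exact (L2 (z4 z c0 c1 c2 h c3 c4 c5).2.1).symm
  have u3 : ∀ z, z ≠ q3 → K.Adj q3 z := by
    intro z h
    by_cases c0 : z = a
    · subst c0; exact (uA _ h.symm).symm
    by_cases c1 : z = b
    · subst c1; exact (uB _ h.symm).symm
    by_cases c2 : z = q1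
    · subst c2; exact (u1 _ h.symm).symm
    by_cases c3 : z = q2
    · subst c3; exact (u2 _ h.symm).symm
    by_cases c4 : z = q4
    · subst c4; exact L3 r3
    by_cases c5 : z = q5
    · subst c5; exact (L2 s53).symm
    exact (zz z c0 c1 c2 c3 h c4 c5).symm
  have u4 : ∀ z, z ≠ q4 → K.Adj q4 z := by
    intro z h
    by_cases c0 : z = a
    · subst c0; exact (uA _ h.symm).symm
    by_cases c1 : z = b
    · subst c1; exact (uB _ h.symm).symm
    by_cases c2 : z = q1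
    · subst c2; exact (u1 _ h.symm).symm
    by_cases c3 : z = q2
    · subst c3; exact (u2 _ h.symm).symm
    by_cases c4 : z = q3
    · subst c4; exact (u3 _ h.symm).symm
    by_cases c5 : z = q5
    · subst c5; exact L3 r4
    exact (L2 (z4 z c0 c1 c2 c3 c4 h c5).2.2.1).symm
  have u5 : ∀ z, z ≠ q5 → K.Adj q5 z := by
    intro z h
    by_cases c0 : z = a
    · subst c0; exact (uA _ h.symm).symm
    by_cases c1 : z = b
    · subst c1; exact (uB _ h.symm).symm
    by_cases c2 : z = q1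
    · subst c2; exact (u1 _ h.symm).symm
    by_cases c3 : z = q2
    · subst c3; exact (u2 _ h.symm).symm
    by_cases c4 : z = q3
    · subst c4; exact (u3 _ h.symm).symm
    by_cases c5 : z = q4
    · subst c5; exact (u4 _ h.symm).symm
    exact (L2 (z4 z c0 c1 c2 c3 c4 c5 h).2.2.2).symm
  ext x y
  rw [SimpleGraph.top_adj]
  refine ⟨fun h => h.ne, fun h => ?_⟩
  by_cases x0 : x = a
  · subst x0; exact uA y h.symm
  by_cases x1 : x = b
  · subst x1; exact uB y h.symm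
  by_cases x2 : x = q1
  · subst x2; exact u1 y h.symm
  by_cases x3 : x = q2
  · subst x3; exact u2 y h.symm
  by_cases x4 : x = q3
  · subst x4; exact u3 y h.symm
  by_cases x5 : x = q4
  · subst x5; exact u4 y h.symm
  by_cases x6 : x = q5
  · subst x6; exact u5 y h.symm
  by_cases y0 : y = a
  · subst y0; exact (uA x h).symm
  by_cases y1 : y = b
  · subst y1; exact (uB x h).symm
  by_cases y2 : y = q1
  · subst y2; exact (u1 x h).symm
  by_cases y3 : y = q2
  · subst y3; exact (u2 x h).symm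
  by_cases y4 : y = q3
  · subst y4; exact (u3 x h).symm
  by_cases y5 : y = q4
  · subst y5; exact (u4 x h).symm
  by_cases y6 : y = q5
  · subst y6; exact (u5 x h).symm
  exact zz' x y h x0 x1 x2 x3 x4 x5 x6 y0 y1 y2 y3 y4 y5 y6

/-- A full wheel whose centre is not the universal vertex `a`: complete after three rounds. -/
lemma three_rounds [Fintype β] (h8 : 8 ≤ Fintype.card β) {G : SimpleGraph β} {a b : β}
    {c : Fin 6 → β} (ha : Un G a) (hb : b ≠ a) (w : FW G b c) :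
    step Hp (step Hp (step Hp G)) = ⊤ := by
  have L : G ≤ step Hp G := le_step _ _
  have key : ∀ i, (∀ j, j ≠ i → c j ≠ a) → step Hp (step Hp (step Hp G)) = ⊤ := by
    intro i hi
    have r1 := L (w.rim (i + 1))
    have r2 := L (w.rim (i + 2))
    have r3 := L (w.rim (i + 3))
    have r4 := L (w.rim (i + 4))
    rw [show i + 1 + 1 = i + 2 by clear * -; revert i; decide] at r1
    rw [show i + 2 + 1 = i + 3 by clear * -; revert i; decide] at r2
    rw [show i + 3 + 1 = i + 4 by clear * -; revert i; decide] at r3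
    rw [show i + 4 + 1 = i + 5 by clear * -; revert i; decide] at r4
    refine two_univ h8 (ha.mono L) w.un hb.symm ?_ ?_ ?_ r1 r2 r3 r4
    · have : ([i + 1, i + 2, i + 3, i + 4, i + 5] : List (Fin 6)).Nodup := by
        clear * -; revert i; decide
      exact this.map w.inj
    · simp only [List.mem_cons, List.not_mem_nil, or_false, not_or]
      exact ⟨(hi _ (by clear * -; revert i; decide)).symm,
        (hi _ (by clear * -; revert i; decide)).symm,
        (hi _ (by clear * -; revert i; decide)).symm,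
        (hi _ (by clear * -; revert i; decide)).symm,
        (hi _ (by clear * -; revert i; decide)).symm⟩
    · simp only [List.mem_cons, List.not_mem_nil, or_false, not_or]
      exact ⟨(w.ne _).symm, (w.ne _).symm, (w.ne _).symm, (w.ne _).symm, (w.ne _).symm⟩
  by_cases h : ∃ i, c i = a
  · obtain ⟨i, hi⟩ := h
    exact key i (fun j hj e => hj (w.inj (e.trans hi.symm)))
  · push Not at h
    exact key 0 (fun j _ => h j)

lemma tau_upper [Fintype β] (h8 : 8 ≤ Fintype.card β) {k : ℕ} (hk : Nat.card β ≤ 5 ^ k)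
    (G : SimpleGraph β) : tau Hp G ≤ k + 46 := by
  by_cases h0 : proc Hp G 0 = proc Hp G (0 + 1)
  · exact (tau_le Hp G h0).trans (Nat.zero_le _)
  obtain ⟨a, c, hac⟩ : ∃ a c, FW (proc Hp G 1) a c := by
    by_contra hno
    apply h0
    rw [proc_succ]
    apply le_antisymm (le_step _ _)
    intro x y h
    have h' := h
    rcases h with h | ⟨_, h⟩
    · exact h
    · exfalso
      obtain ⟨b, c, z, w, _⟩ := of_newCopy_plus h
      apply hno
      refine ⟨b, c, ?_⟩
      rw [show (1 : ℕ) = 0 + 1 from rfl, proc_succ]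
      exact fw_of_new w h'
  have hU2 : Un (proc Hp G 2) a := by
    rw [show (2 : ℕ) = 1 + 1 from rfl, proc_succ]
    exact hac.un
  have hU : ∀ t, Un (proc Hp G (2 + t)) a := fun t => hU2.mono (proc_mono Hp G (by omega))
  by_cases hF : ∃ t ≤ k + 41, ∃ b c, b ≠ a ∧ FW (proc Hp G (2 + t)) b c
  · obtain ⟨t, ht, b, c, hb, w⟩ := hF
    have h3 := three_rounds h8 (hU t) hb w
    rw [← proc_succ, ← proc_succ, ← proc_succ] at h3
    have h4 : proc Hp G (2 + t + 1 + 1 + 1) = proc Hp G (2 + t + 1 + 1 + 1 + 1) := by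
      apply le_antisymm (proc_mono Hp G (by omega))
      rw [h3]
      exact le_top
    have := tau_le Hp G h4
    omega
  · push Not at hF
    have hdel : ∀ t ≤ k + 41, del a (proc Hp G (2 + t)) = F6 (del a (proc Hp G 2)) t := by
      intro t
      induction t with
      | zero => intro _; rfl
      | succ t ih =>
        intro ht
        rw [F6_succ, ← ih (by omega), ← add_assoc, proc_succ]
        apply del_step h8 (hU t)
        rintro ⟨b, c, hb, w⟩
        rw [← proc_succ] at w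
        exact hF (t + 1) ht b c hb w
    have hfan : ¬ HasFan (F6 (del a (proc Hp G 2)) (k + 40 + 1)) := by
      intro hf
      rw [← hdel _ (by omega)] at hf
      obtain ⟨b, c, hb, w⟩ := fw_of_fan (hU _) hf
      exact hF (k + 40 + 1) (by omega) b c hb w
    have hst := c6_stable hk le_rfl hfan
    rw [← hdel _ (by omega), ← hdel _ (by omega)] at hst
    have h5 := del_inj (hU _) (hU _) hst
    have := tau_le Hp G (t := 2 + (k + 40)) h5.symm
    omega

theorem Mx_plus_le {n k : ℕ} (hk : n ≤ 5 ^ k) : Mx (plus W6 none) n ≤ k + 46 := by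
  apply Mx_le
  intro G
  by_cases h8 : 8 ≤ n
  · exact tau_upper (by simpa using h8) (by simpa using hk) G
  · refine (tau_le Hp G (t := 0) ?_).trans (Nat.zero_le _)
    rw [proc_succ]
    apply le_antisymm (le_step _ _)
    rintro x y (h | ⟨_, f, hf, _⟩)
    · exact h
    · exfalso
      have := Fintype.card_le_of_injective f hf
      simp at this
      omega

end Pool.Agent.H195.BP
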