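import Pool.Agent.H195.BPBase

/-! Unfolding one step of the wheel process (with and without the pendant edge). -/

namespace Pool.Agent.H195.BP

variable {β : Type}

/-- A wheel minus a rim edge `p0 p5`, centre `a`. -/
structure RimP (G : SimpleGraph β) (a p0 p1 p2 p3 p4 p5 : β) : Prop where
  nd : [p0, p1, p2, p3, p4, p5].Nodup
  na : a ∉ [p0, p1, p2, p3, p4, p5]
  s0 : G.Adj a p0
  s1 : G.Adj a p1
  s2 : G.Adj a p2
  s3 : G.Adj a p3
  s4 : G.Adj a p4
  s5 : G.Adj a p5
  r0 : G.Adj p0 p1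
  r1 : G.Adj p1 p2
  r2 : G.Adj p2 p3
  r3 : G.Adj p3 p4
  r4 : G.Adj p4 p5

/-- A wheel minus a spoke `a p0`, centre `a`. -/
structure SpkP (G : SimpleGraph β) (a p0 p1 p2 p3 p4 p5 : β) : Prop where
  nd : [p0, p1, p2, p3, p4, p5].Nodup
  na : a ∉ [p0, p1, p2, p3, p4, p5]
  s1 : G.Adj a p1
  s2 : G.Adj a p2
  s3 : G.Adj a p3
  s4 : G.Adj a p4
  s5 : G.Adj a p5
  r0 : G.Adj p0 p1
  r1 : G.Adj p1 p2
  r2 : G.Adj p2 p3
  r3 : G.Adj p3 p4
  r4 : G.Adj p4 p5
  r5 : G.Adj p5 p0

lemma RimP.mono {G G' : SimpleGraph β} (h : G ≤ G') {a p0 p1 p2 p3 p4 p5 : β}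
    (w : RimP G a p0 p1 p2 p3 p4 p5) : RimP G' a p0 p1 p2 p3 p4 p5 :=
  ⟨w.nd, w.na, h w.s0, h w.s1, h w.s2, h w.s3, h w.s4, h w.s5, h w.r0, h w.r1, h w.r2, h w.r3,
    h w.r4⟩

lemma whl_of_rim {G : SimpleGraph β} {a p0 p1 p2 p3 p4 p5 : β}
    (w : RimP G a p0 p1 p2 p3 p4 p5) : Whl G p0 p5 a ![p0, p1, p2, p3, p4, p5] := by
  refine ⟨?_, ?_, ?_, ?_⟩
  · rw [← List.nodup_ofFn]
    simpa [List.ofFn_succ] using w.nd
  · intro i hi
    apply w.na
    rw [← hi]
    fin_cases i <;> simp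
  · intro i
    left
    fin_cases i
    exacts [w.s0, w.s1, w.s2, w.s3, w.s4, w.s5]
  · intro i
    fin_cases i
    exacts [Or.inl w.r0, Or.inl w.r1, Or.inl w.r2, Or.inl w.r3, Or.inl w.r4, Or.inr Sym2.eq_swap]

lemma whl_of_spk {G : SimpleGraph β} {a p0 p1 p2 p3 p4 p5 : β}
    (w : SpkP G a p0 p1 p2 p3 p4 p5) : Whl G a p0 a ![p0, p1, p2, p3, p4, p5] := by
  refine ⟨?_, ?_, ?_, ?_⟩
  · rw [← List.nodup_ofFn]
    simpa [List.ofFn_succ] using w.nd
  · intro i hi
    apply w.na
    rw [← hi]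
    fin_cases i <;> simp
  · intro i
    fin_cases i
    exacts [Or.inr rfl, Or.inl w.s1, Or.inl w.s2, Or.inl w.s3, Or.inl w.s4, Or.inl w.s5]
  · intro i
    left
    fin_cases i
    exacts [w.r0, w.r1, w.r2, w.r3, w.r4, w.r5]

lemma Whl.rim_case {G : SimpleGraph β} {x y a : β} {c : Fin 6 → β} (w : Whl G x y a c) (i : Fin 6)
    (hi : s(c i, c (i + 1)) = s(x, y)) :
    RimP G a (c (i + 1)) (c (i + 2)) (c (i + 3)) (c (i + 4)) (c (i + 5)) (c i) := by
  have hsp : ∀ j, G.Adj a (c j) := by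
    intro j
    rcases w.spoke j with h | h
    · exact h
    · exfalso
      rw [← hi] at h
      rcases Sym2.eq_iff.1 h with ⟨p, _⟩ | ⟨p, _⟩
      · exact w.ne _ p.symm
      · exact w.ne _ p.symm
  have hrim : ∀ j, j ≠ i → G.Adj (c j) (c (j + 1)) := by
    intro j hj
    rcases w.rim j with h | h
    · exact h
    · exfalso
      rw [← hi] at h
      rcases Sym2.eq_iff.1 h with ⟨p, _⟩ | ⟨p, q⟩
      · exact hj (w.inj p)
      · have h1 := w.inj p
        have h2 := w.inj q
        subst h1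
        revert h2
        clear * -
        revert i
        decide
  refine ⟨?_, ?_, hsp _, hsp _, hsp _, hsp _, hsp _, hsp _, ?_, ?_, ?_, ?_, ?_⟩
  · have : ([i + 1, i + 2, i + 3, i + 4, i + 5, i] : List (Fin 6)).Nodup := by
      clear * -
      revert i
      decide
    exact this.map w.inj
  · intro hh
    simp only [List.mem_cons, List.not_mem_nil, or_false] at hh
    rcases hh with e | e | e | e | e | e <;> exact w.ne _ e.symm
  all_goals
    first
    | (have := hrim (i + 1) (by clear * -; revert i; decide)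
       rwa [show i + 1 + 1 = i + 2 by clear * -; revert i; decide] at this)
    | (have := hrim (i + 2) (by clear * -; revert i; decide)
       rwa [show i + 2 + 1 = i + 3 by clear * -; revert i; decide] at this)
    | (have := hrim (i + 3) (by clear * -; revert i; decide)
       rwa [show i + 3 + 1 = i + 4 by clear * -; revert i; decide] at this)
    | (have := hrim (i + 4) (by clear * -; revert i; decide)
       rwa [show i + 4 + 1 = i + 5 by clear * -; revert i; decide] at this)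
    | (have := hrim (i + 5) (by clear * -; revert i; decide)
       rwa [show i + 5 + 1 = i by clear * -; revert i; decide] at this)

lemma Whl.spoke_case {G : SimpleGraph β} {x y a : β} {c : Fin 6 → β} (w : Whl G x y a c)
    (i : Fin 6) (hi : s(a, c i) = s(x, y)) :
    SpkP G a (c i) (c (i + 1)) (c (i + 2)) (c (i + 3)) (c (i + 4)) (c (i + 5)) := by
  have hrim : ∀ j, G.Adj (c j) (c (j + 1)) := by
    intro j
    rcases w.rim j with h | h
    · exact h
    · exfalso
      rw [← hi] at h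
      rcases Sym2.eq_iff.1 h with ⟨p, _⟩ | ⟨p, q⟩
      · exact w.ne _ p
      · exact w.ne _ q
  have hsp : ∀ j, j ≠ i → G.Adj a (c j) := by
    intro j hj
    rcases w.spoke j with h | h
    · exact h
    · exfalso
      rw [← hi] at h
      rcases Sym2.eq_iff.1 h with ⟨_, p⟩ | ⟨p, q⟩
      · exact hj (w.inj p)
      · exact w.ne _ p.symm
  refine ⟨?_, ?_, hsp _ ?_, hsp _ ?_, hsp _ ?_, hsp _ ?_, hsp _ ?_, hrim i, ?_, ?_, ?_, ?_, ?_⟩
  · have : ([i, i + 1, i + 2, i + 3, i + 4, i + 5] : List (Fin 6)).Nodup := by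
      clear * -
      revert i
      decide
    exact this.map w.inj
  · intro hh
    simp only [List.mem_cons, List.not_mem_nil, or_false] at hh
    rcases hh with e | e | e | e | e | e <;> exact w.ne _ e.symm
  · clear * -; revert i; decide
  · clear * -; revert i; decide
  · clear * -; revert i; decide
  · clear * -; revert i; decide
  · clear * -; revert i; decide
  · have := hrim (i + 1)
    rwa [show i + 1 + 1 = i + 2 by clear * -; revert i; decide] at this
  · have := hrim (i + 2)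
    rwa [show i + 2 + 1 = i + 3 by clear * -; revert i; decide] at this
  · have := hrim (i + 3)
    rwa [show i + 3 + 1 = i + 4 by clear * -; revert i; decide] at this
  · have := hrim (i + 4)
    rwa [show i + 4 + 1 = i + 5 by clear * -; revert i; decide] at this
  · have := hrim (i + 5)
    rwa [show i + 5 + 1 = i by clear * -; revert i; decide] at this

/-! ### introduction rules -/

lemma step_rim {G : SimpleGraph β} {a p0 p1 p2 p3 p4 p5 : β}
    (w : RimP G a p0 p1 p2 p3 p4 p5) : (step W6 G).Adj p0 p5 := by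
  right
  refine ⟨?_, newCopy_W6_of (whl_of_rim w) (Or.inr ⟨5, Sym2.eq_swap⟩)⟩
  have := w.nd
  simp only [List.nodup_cons, List.mem_cons, not_or] at this
  tauto

lemma elim_W6 {G : SimpleGraph β} {x y : β} (h : (step W6 G).Adj x y) :
    G.Adj x y ∨
    (∃ a p0 p1 p2 p3 p4 p5, RimP G a p0 p1 p2 p3 p4 p5 ∧ s(p5, p0) = s(x, y)) ∨
    (∃ a p0 p1 p2 p3 p4 p5, SpkP G a p0 p1 p2 p3 p4 p5 ∧ s(a, p0) = s(x, y)) := by
  rcases h with h | ⟨_, h⟩
  · exact Or.inl h
  · obtain ⟨a, c, w, ⟨i, hi⟩ | ⟨i, hi⟩⟩ := of_newCopy_W6 h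
    · exact Or.inr (Or.inr ⟨_, _, _, _, _, _, _, w.spoke_case i hi, hi⟩)
    · exact Or.inr (Or.inl ⟨_, _, _, _, _, _, _, w.rim_case i hi, hi⟩)

end Pool.Agent.H195.BP
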